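import Pool.Agent.LibMT.Functional

/-!
The row summation operator on words and the branching rule: adjoining the point `1` to the
point set of `X` corresponds to one row summation.
-/

namespace LibMT

open Finset HasOmega

section tsum

variable {A : Type*} [AddCommGroup A]

/-- The extended sum `∑_{l=a}^{b-1} f l`. -/
noncomputable def esum (a b : ℤ) (f : ℤ → A) : A := ∑ l ∈ Finset.Ico a b, f l - ∑ l ∈ Finset.Ico b a, f l

theorem sum_Ico_tel {a b : ℤ} (hab : a ≤ b) (S : ℤ → A) :
    ∑ l ∈ Finset.Ico a b, (S (l + 1) - S l) = S b - S a := by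
  induction b, hab using Int.leInduction with
  | base => simp
  | succ n hn ih =>
    have : Finset.Ico a (n + 1) = insert n (Finset.Ico a n) := by
      ext x; simp only [Finset.mem_Ico, Finset.mem_insert]; omega
    rw [this, Finset.sum_insert (by simp), ih]
    abel

theorem esum_tel (a b : ℤ) (f S : ℤ → A) (h : ∀ l, S (l + 1) - S l = f l) :
    esum a b f = S b - S a := by
  have hf : f = fun l => S (l + 1) - S l := funext fun l => (h l).symm
  unfold esum
  rcases le_total a b with hab | hab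
  · rw [Finset.Ico_eq_empty_of_le hab, hf, sum_Ico_tel hab]; simp
  · rw [Finset.Ico_eq_empty_of_le hab, hf, sum_Ico_tel hab]; simp

/-- Extended row summation: for a row `x, w` we sum `g` over the rows `v` interlacing with it. -/
noncomputable def tsumAux : ℤ → List ℤ → (List ℤ → A) → A
  | _, [], g => g []
  | x, y :: w, g =>
    esum x y (fun l => tsumAux y w (fun v => g (l :: v))) + tsumAux (y + 1) w (fun v => g (y :: v))

theorem tsumAux_nil (x : ℤ) (g : List ℤ → A) : tsumAux x [] g = g [] := rfl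

theorem tsumAux_cons (x y : ℤ) (w : List ℤ) (g : List ℤ → A) :
    tsumAux x (y :: w) g = esum x y (fun l => tsumAux y w (fun v => g (l :: v)))
      + tsumAux (y + 1) w (fun v => g (y :: v)) := rfl

end tsum

section ring

variable {R : Type*} [CommRing R]

theorem esum_mul_left (a b : ℤ) (r : R) (f : ℤ → R) :
    esum a b (fun l => r * f l) = r * esum a b f := by
  unfold esum
  rw [← Finset.mul_sum, ← Finset.mul_sum, mul_sub]

theorem esum_mul_right (a b : ℤ) (r : R) (f : ℤ → R) :
    esum a b (fun l => f l * r) = esum a b f * r := by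
  unfold esum
  rw [← Finset.sum_mul, ← Finset.sum_mul, sub_mul]

theorem esum_sum {ι : Type*} (s : Finset ι) (a b : ℤ) (f : ι → ℤ → R) :
    esum a b (fun l => ∑ i ∈ s, f i l) = ∑ i ∈ s, esum a b (f i) := by
  unfold esum
  rw [Finset.sum_comm, Finset.sum_comm (s := Finset.Ico b a), Finset.sum_sub_distrib]

theorem esum_add (a b : ℤ) (f g : ℤ → R) :
    esum a b (fun l => f l + g l) = esum a b f + esum a b g := by
  unfold esum
  rw [Finset.sum_add_distrib, Finset.sum_add_distrib]
  ring

theorem tsumAux_sum {ι : Type*} (s : Finset ι) (w : List ℤ) : ∀ (x : ℤ) (g : ι → List ℤ → R)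
    (r : ι → R), tsumAux x w (fun v => ∑ i ∈ s, r i * g i v) = ∑ i ∈ s, r i * tsumAux x w (g i) := by
  induction w with
  | nil => intro x g r; rfl
  | cons y w ih =>
    intro x g r
    simp only [tsumAux_cons]
    rw [ih]
    simp_rw [ih]
    rw [esum_sum, ← Finset.sum_add_distrib]
    refine Finset.sum_congr rfl fun i _ => ?_
    rw [esum_mul_left, mul_add]

end ring

variable {K : Type*} [Field K] [DecidableEq K] [HasOmega K]

omit [DecidableEq K] [HasOmega K] in
theorem esum_zpow {z : K} (h0 : z ≠ 0) (h1 : 1 - z ≠ 0) (x y : ℤ) :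
    esum x y (fun l => z ^ l) = (z ^ x - z ^ y) / (1 - z) := by
  rw [esum_tel x y (fun l => z ^ l) (fun l => - (z ^ l / (1 - z)))]
  · field_simp; ring
  · intro l
    rw [zpow_add_one₀ h0]
    field_simp
    ring

omit [DecidableEq K] in
/-- Antisymmetry of the numerator kernel. -/
theorem kp_antisymm {c d : K} (hc2 : c ≠ om ^ 2) (hd2 : d ≠ om ^ 2) (hcd : c ≠ d) :
    kp c d * (1 - zf d + zf d * zf c) + kp d c * (1 - zf c + zf c * zf d) = 0 := by
  have h1 : (om : K) ^ 2 + om + 1 = 0 := om_eq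
  have h2 : c - om ^ 2 ≠ 0 := sub_ne_zero.2 hc2
  have h3 : d - om ^ 2 ≠ 0 := sub_ne_zero.2 hd2
  have h4 : c - d ≠ 0 := sub_ne_zero.2 hcd
  have h5 : d - c ≠ 0 := sub_ne_zero.2 (Ne.symm hcd)
  unfold kp zf
  field_simp
  grind

theorem XZ_insert_one_expand [CharZero K] (y : ℤ) (w : List ℤ) {Z : Finset K} (hZ : Good Z) :
    XZ (y :: w) (insert 1 Z) = (∏ j ∈ Z, kp 1 j) * XZ w Z
      + ∑ c ∈ Z, zf c ^ y / (1 - zf c) * (∏ j ∈ Z.erase c, kp c j)
          * XZ w (insert 1 (Z.erase c)) := by
  rw [XZ_cons, Finset.sum_insert hZ.one_notMem, Finset.erase_insert hZ.one_notMem, zf_one,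
    one_zpow, one_mul]
  congr 1
  refine Finset.sum_congr rfl fun c hc => ?_
  have hc1 : (1 : K) ≠ c := (hZ.ne_one hc).symm
  rw [Finset.erase_insert_of_ne hc1, Finset.prod_insert
    (fun h => hZ.one_notMem (Finset.mem_of_mem_erase h)),
    kp_one_right (hZ.ne_om_sq hc) (hZ.ne_one hc)]
  ring

/-- The branching rule. -/
theorem XZ_insert_one [CharZero K] (w : List ℤ) : ∀ (x : ℤ) (Z : Finset K), Good Z →
    XZ (x :: w) (insert 1 Z) = tsumAux x w (fun v => XZ v Z) := by
  induction w with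
  | nil =>
    intro x Z hZ
    rw [XZ_insert_one_expand x [] hZ, tsumAux_nil, XZ_nil]
    have : ∑ c ∈ Z, zf c ^ x / (1 - zf c) * (∏ j ∈ Z.erase c, kp c j)
          * XZ [] (insert 1 (Z.erase c)) = 0 := by
      refine Finset.sum_eq_zero fun c _ => ?_
      rw [XZ_nil, if_neg (Finset.insert_ne_empty _ _), mul_zero]
    rw [this, add_zero]
    split_ifs with h
    · rw [h]; simp
    · simp
  | cons y w ih =>
    intro x Z hZ
    -- right-hand side
    have key : ∀ (x' : ℤ) , ∀ c ∈ Z, tsumAux x' w (fun v => XZ v (Z.erase c))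
        = XZ (x' :: w) (insert 1 (Z.erase c)) := fun x' c _ => (ih x' _ (hZ.erase c)).symm
    have rhs1 : esum x y (fun l => tsumAux y w (fun v => XZ (l :: v) Z))
        = ∑ c ∈ Z, (zf c ^ x - zf c ^ y) / (1 - zf c) * ((∏ j ∈ Z.erase c, kp c j)
            * XZ (y :: w) (insert 1 (Z.erase c))) := by
      simp_rw [XZ_cons _ _ Z]
      simp_rw [tsumAux_sum]
      rw [esum_sum]
      refine Finset.sum_congr rfl fun c hc => ?_
      rw [key y c hc]
      have e : (fun l : ℤ => zf c ^ l * (∏ j ∈ Z.erase c, kp c j)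
          * XZ (y :: w) (insert 1 (Z.erase c))) = fun l : ℤ => zf c ^ l *
            ((∏ j ∈ Z.erase c, kp c j) * XZ (y :: w) (insert 1 (Z.erase c))) :=
        funext fun l => mul_assoc _ _ _
      rw [e, esum_mul_right, esum_zpow (zf_ne_zero (hZ.ne_om_sq hc) (hZ.ne_om hc))
        (one_sub_zf_ne (hZ.ne_om_sq hc) (hZ.ne_one hc))]
    have rhs2 : tsumAux (y + 1) w (fun v => XZ (y :: v) Z)
        = ∑ c ∈ Z, zf c ^ y * ((∏ j ∈ Z.erase c, kp c j)
            * XZ ((y + 1) :: w) (insert 1 (Z.erase c))) := by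
      simp_rw [XZ_cons y _ Z]
      rw [tsumAux_sum]
      refine Finset.sum_congr rfl fun c hc => ?_
      rw [key (y + 1) c hc, mul_assoc]
    rw [tsumAux_cons, rhs1, rhs2, XZ_insert_one_expand x (y :: w) hZ]
    -- difference
    have h0 : ∀ c ∈ Z, 1 - zf c ≠ 0 := fun c hc => one_sub_zf_ne (hZ.ne_om_sq hc) (hZ.ne_one hc)
    have hA : ∀ c ∈ Z, (∏ j ∈ Z.erase c, kp 1 j) * (zf c / (1 - zf c)) = - ∏ j ∈ Z, kp 1 j := by
      intro c hc
      rw [← Finset.mul_prod_erase Z (fun j => kp 1 j) hc,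
        kp_one_left (hZ.ne_om_sq hc) (hZ.ne_one hc)]
      ring
    have hB : ∑ c ∈ Z, zf c ^ y * (∏ j ∈ Z.erase c, kp c j) *
        (XZ (y :: w) (insert 1 (Z.erase c)) / (1 - zf c) - XZ ((y + 1) :: w) (insert 1 (Z.erase c)))
        = - (∏ j ∈ Z, kp 1 j) * XZ (y :: w) Z
          + ∑ c ∈ Z, ∑ d ∈ Z.erase c, zf c ^ y * (∏ j ∈ Z.erase c, kp c j) *
            (zf d ^ y / (1 - zf d) * (∏ j ∈ (Z.erase c).erase d, kp d j)
              * XZ w (insert 1 ((Z.erase c).erase d)) * (1 / (1 - zf c) - zf d)) := by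
      rw [XZ_cons, Finset.mul_sum, ← Finset.sum_add_distrib]
      refine Finset.sum_congr rfl fun c hc => ?_
      rw [XZ_insert_one_expand y w (hZ.erase c), XZ_insert_one_expand (y + 1) w (hZ.erase c),
        ← Finset.mul_sum]
      have e1 : ∑ d ∈ Z.erase c, (zf d ^ y / (1 - zf d) * (∏ j ∈ (Z.erase c).erase d, kp d j)
              * XZ w (insert 1 ((Z.erase c).erase d)) * (1 / (1 - zf c) - zf d))
          = (∑ d ∈ Z.erase c, zf d ^ y / (1 - zf d) * (∏ j ∈ (Z.erase c).erase d, kp d j)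
              * XZ w (insert 1 ((Z.erase c).erase d))) / (1 - zf c)
            - ∑ d ∈ Z.erase c, zf d ^ (y + 1) / (1 - zf d) * (∏ j ∈ (Z.erase c).erase d, kp d j)
              * XZ w (insert 1 ((Z.erase c).erase d)) := by
        rw [Finset.sum_div, ← Finset.sum_sub_distrib]
        refine Finset.sum_congr rfl fun d hd => ?_
        have hdZ := Finset.mem_of_mem_erase hd
        rw [zpow_add_one₀ (zf_ne_zero (hZ.ne_om_sq hdZ) (hZ.ne_om hdZ))]
        ring
      rw [e1]
      have e2 := hA c hc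
      have e3 : (∏ j ∈ Z.erase c, kp 1 j) * (1 / (1 - zf c) - 1) = - ∏ j ∈ Z, kp 1 j := by
        rw [← e2]
        have := h0 c hc
        field_simp
        ring
      rw [← e3]
      ring
    have hC : ∑ c ∈ Z, ∑ d ∈ Z.erase c, zf c ^ y * (∏ j ∈ Z.erase c, kp c j) *
            (zf d ^ y / (1 - zf d) * (∏ j ∈ (Z.erase c).erase d, kp d j)
              * XZ w (insert 1 ((Z.erase c).erase d)) * (1 / (1 - zf c) - zf d)) = 0 := by
      set S := ∑ c ∈ Z, ∑ d ∈ Z.erase c, zf c ^ y * (∏ j ∈ Z.erase c, kp c j) *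
            (zf d ^ y / (1 - zf d) * (∏ j ∈ (Z.erase c).erase d, kp d j)
              * XZ w (insert 1 ((Z.erase c).erase d)) * (1 / (1 - zf c) - zf d)) with hS
      have hS2 : S + S = 0 := by
        have hsw : S = ∑ c ∈ Z, ∑ d ∈ Z.erase c, zf d ^ y * (∏ j ∈ Z.erase d, kp d j) *
            (zf c ^ y / (1 - zf c) * (∏ j ∈ (Z.erase d).erase c, kp c j)
              * XZ w (insert 1 ((Z.erase d).erase c)) * (1 / (1 - zf d) - zf c)) := by
          rw [hS, sum_erase_comm]
        nth_rewrite 2 [hsw]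
        rw [hS, ← Finset.sum_add_distrib]
        refine Finset.sum_eq_zero fun c hc => ?_
        rw [← Finset.sum_add_distrib]
        refine Finset.sum_eq_zero fun d hd => ?_
        have hdZ := Finset.mem_of_mem_erase hd
        have hdc : d ≠ c := (Finset.mem_erase.1 hd).1
        have hcd : c ∈ Z.erase d := Finset.mem_erase.2 ⟨Ne.symm hdc, hc⟩
        rw [← Finset.mul_prod_erase (Z.erase c) (fun j => kp c j) hd,
          ← Finset.mul_prod_erase (Z.erase d) (fun j => kp d j) hcd,
          Finset.erase_right_comm (a := d) (b := c)]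
        have h1 := h0 c hc
        have h2 := h0 d hdZ
        have h3 := kp_antisymm (hZ.ne_om_sq hc) (hZ.ne_om_sq hdZ) (Ne.symm hdc)
        have h4 : kp c d * (1 / (1 - zf d)) * (1 / (1 - zf c) - zf d)
            + kp d c * (1 / (1 - zf c)) * (1 / (1 - zf d) - zf c) = 0 := by
          have : kp c d * (1 / (1 - zf d)) * (1 / (1 - zf c) - zf d)
            + kp d c * (1 / (1 - zf c)) * (1 / (1 - zf d) - zf c)
            = (kp c d * (1 - zf d + zf d * zf c) + kp d c * (1 - zf c + zf c * zf d))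
              / ((1 - zf c) * (1 - zf d)) := by
            field_simp
            ring
          rw [this, h3, zero_div]
        linear_combination (zf c ^ y * zf d ^ y * (∏ j ∈ (Z.erase c).erase d, kp c j)
          * (∏ j ∈ (Z.erase c).erase d, kp d j) * XZ w (insert 1 ((Z.erase c).erase d))) * h4
      have h2 : (2 : K) ≠ 0 := two_ne_zero
      have : (2 : K) * S = 0 := by rw [two_mul]; exact hS2
      exact (mul_eq_zero.1 this).resolve_left h2
    rw [hC, add_zero] at hB
    have hD : ∑ c ∈ Z, zf c ^ y * (∏ j ∈ Z.erase c, kp c j) *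
        (XZ (y :: w) (insert 1 (Z.erase c)) / (1 - zf c) - XZ ((y + 1) :: w) (insert 1 (Z.erase c)))
        = ∑ c ∈ Z, zf c ^ x / (1 - zf c) * (∏ j ∈ Z.erase c, kp c j)
            * XZ (y :: w) (insert 1 (Z.erase c))
          - ∑ c ∈ Z, (zf c ^ x - zf c ^ y) / (1 - zf c) * ((∏ j ∈ Z.erase c, kp c j)
            * XZ (y :: w) (insert 1 (Z.erase c)))
          - ∑ c ∈ Z, zf c ^ y * ((∏ j ∈ Z.erase c, kp c j)
            * XZ ((y + 1) :: w) (insert 1 (Z.erase c))) := by
      rw [← Finset.sum_sub_distrib, ← Finset.sum_sub_distrib]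
      refine Finset.sum_congr rfl fun c hc => ?_
      ring
    rw [hD] at hB
    linear_combination hB

end LibMT
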