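import Mathlib

/-!
Core definitions for the word functional `X` used in the proof of the
reverse-and-duplicate identity for the monotone triangle polynomial.
-/

namespace LibMT

open Finset

/-- A field containing a primitive third root of unity `om`. -/
class HasOmega (K : Type*) [Field K] where
  /-- the root of unity -/
  om : K
  om_eq : om ^ 2 + om + 1 = 0

open HasOmega

variable {K : Type*} [Field K] [DecidableEq K] [HasOmega K]

omit [DecidableEq K] in
theorem om_cube : (om : K) ^ 3 = 1 := by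
  have h : (om : K) ^ 2 + om + 1 = 0 := om_eq
  linear_combination (om - 1) * h

omit [DecidableEq K] in
theorem om_sq : (om : K) ^ 2 = - om - 1 := by
  have h : (om : K) ^ 2 + om + 1 = 0 := om_eq
  linear_combination h

omit [DecidableEq K] in
theorem om_ne_zero : (om : K) ≠ 0 := by
  intro h
  have h1 : (om : K) ^ 3 = 1 := om_cube
  rw [h] at h1
  norm_num at h1

omit [DecidableEq K] in
theorem om_ne_one [CharZero K] : (om : K) ≠ 1 := by
  intro h
  have h1 : (om : K) ^ 2 + om + 1 = 0 := om_eq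
  rw [h] at h1
  norm_num at h1

omit [DecidableEq K] in
theorem om_sq_ne_one [CharZero K] : (om : K) ^ 2 ≠ 1 := by
  intro h
  have h1 : (om : K) ^ 3 = 1 := om_cube
  have : (om : K) = 1 := by
    calc (om : K) = om * 1 := by ring
      _ = om * om ^ 2 := by rw [h]
      _ = 1 := by rw [← h1]; ring
  exact om_ne_one this

omit [DecidableEq K] in
theorem om_sq_ne_om [CharZero K] : (om : K) ^ 2 ≠ om := by
  intro h
  have : (om : K) * (om - 1) = 0 := by linear_combination h
  rcases mul_eq_zero.1 this with h | h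
  · exact om_ne_zero h
  · exact om_ne_one (sub_eq_zero.1 h)

/-- The coordinate `z` in terms of the coordinate `u`. -/
def zf (u : K) : K := - om ^ 2 * (u - om) / (u - om ^ 2)

/-- The kernel. -/
def kp (a b : K) : K := - om * (b - om * a) / (b - a)

omit [DecidableEq K] in
theorem kp_add {a b : K} (h : a ≠ b) : kp a b + kp b a = 1 := by
  have h1 : (om : K) ^ 2 + om + 1 = 0 := om_eq
  have h2 : b - a ≠ 0 := sub_ne_zero.2 (Ne.symm h)
  have h3 : a - b ≠ 0 := sub_ne_zero.2 h
  unfold kp
  field_simp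
  grind

omit [DecidableEq K] in
theorem zf_one [CharZero K] : zf (1 : K) = 1 := by
  have h1 : (om : K) ^ 2 + om + 1 = 0 := om_eq
  have h2 : (1 : K) - om ^ 2 ≠ 0 := sub_ne_zero.2 (Ne.symm om_sq_ne_one)
  unfold zf
  rw [div_eq_one_iff_eq h2]
  linear_combination (om - 1) * h1

omit [DecidableEq K] in
theorem one_sub_zf {c : K} (h : c ≠ om ^ 2) : 1 - zf c = - om * (c - 1) / (c - om ^ 2) := by
  have h1 : (om : K) ^ 2 + om + 1 = 0 := om_eq
  have h2 : c - om ^ 2 ≠ 0 := sub_ne_zero.2 h
  unfold zf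
  field_simp
  linear_combination (c - om) * h1

omit [DecidableEq K] in
theorem one_sub_zf_ne {c : K} (h : c ≠ om ^ 2) (h' : c ≠ 1) : 1 - zf c ≠ 0 := by
  rw [one_sub_zf h]
  exact div_ne_zero (mul_ne_zero (neg_ne_zero.2 om_ne_zero) (sub_ne_zero.2 h')) (sub_ne_zero.2 h)

omit [DecidableEq K] in
theorem zf_ne_zero {c : K} (h : c ≠ om ^ 2) (h' : c ≠ om) : zf c ≠ 0 := by
  unfold zf
  exact div_ne_zero (mul_ne_zero (neg_ne_zero.2 (pow_ne_zero _ om_ne_zero)) (sub_ne_zero.2 h'))
    (sub_ne_zero.2 h)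

omit [DecidableEq K] in
theorem kp_one_right {c : K} (h : c ≠ om ^ 2) (h' : c ≠ 1) : kp c 1 = 1 / (1 - zf c) := by
  have h1 : (om : K) ^ 2 + om + 1 = 0 := om_eq
  have h2 : c - om ^ 2 ≠ 0 := sub_ne_zero.2 h
  have h3 : c - 1 ≠ 0 := sub_ne_zero.2 h'
  have h4 : 1 - c ≠ 0 := sub_ne_zero.2 (Ne.symm h')
  have h5 : (om : K) ≠ 0 := om_ne_zero
  rw [one_sub_zf h]
  unfold kp
  field_simp
  grind

omit [DecidableEq K] in
theorem kp_one_left {c : K} (h : c ≠ om ^ 2) (h' : c ≠ 1) :
    kp 1 c = - (zf c / (1 - zf c)) := by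
  have h3 := kp_add (K := K) (a := c) (b := 1) h'
  have h4 := kp_one_right h h'
  have h5 := one_sub_zf_ne h h'
  rw [h4] at h3
  have : kp 1 c = 1 - 1 / (1 - zf c) := by linear_combination h3
  rw [this]
  field_simp
  ring

end LibMT
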