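import Pool.Agent.LibMT.Kernel

/-!
For strictly increasing words the iterated row sums count monotone triangles.
-/

namespace LibMT

open Finset

/-- Strictly increasing lists, by indices. -/
def SI (w : List ℤ) : Prop := ∀ i, i + 1 < w.length → w.getD i 0 < w.getD (i + 1) 0

/-- `x ≤ w₁ < w₂ < ⋯`. -/
def Chn : ℤ → List ℤ → Prop
  | _, [] => True
  | x, y :: w => x ≤ y ∧ Chn (y + 1) w

theorem Chn.mono {x x' : ℤ} {w : List ℤ} (h : Chn x w) (hx : x' ≤ x) : Chn x' w := by
  cases w with
  | nil => trivial
  | cons y w => exact ⟨hx.trans h.1, h.2⟩

theorem SI.tail {x : ℤ} {w : List ℤ} (h : SI (x :: w)) : SI w := by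
  intro i hi
  have := h (i + 1) (by simpa using hi)
  simpa using this

theorem SI.chn {w : List ℤ} : ∀ {x : ℤ}, SI (x :: w) → Chn (x + 1) w := by
  induction w with
  | nil => intro x _; trivial
  | cons y w ih =>
    intro x h
    have h0 := h 0 (by simp)
    simp only [List.getD_cons_zero, List.getD_cons_succ, zero_add] at h0
    exact ⟨h0, ih h.tail⟩

/-- The rows interlacing with the row `x, w`. -/
noncomputable def rowsAux : ℤ → List ℤ → Finset (List ℤ)
  | _, [] => {[]}
  | x, y :: w => ((Finset.Ico x y).biUnion fun l => (rowsAux y w).image (List.cons l)) ∪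
      (rowsAux (y + 1) w).image (List.cons y)

theorem mem_rowsAux (w : List ℤ) : ∀ (x : ℤ) (m : List ℤ), Chn x w → (m ∈ rowsAux x w ↔
    m.length = w.length ∧
    (∀ i, i < w.length → (x :: w).getD i 0 ≤ m.getD i 0 ∧ m.getD i 0 ≤ w.getD i 0) ∧ SI m) := by
  induction w with
  | nil =>
    intro x m _
    simp only [rowsAux, Finset.mem_singleton, List.length_nil]
    constructor
    · rintro rfl
      exact ⟨rfl, fun i hi => absurd hi (Nat.not_lt_zero _), fun i hi => absurd hi (by simp)⟩
    · rintro ⟨h, -⟩
      exact List.length_eq_zero_iff.1 h
  | cons y w ih =>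
    intro x m hc
    obtain ⟨hxy, hc⟩ := hc
    have hc' : Chn y w := hc.mono (by omega)
    simp only [rowsAux, Finset.mem_union, Finset.mem_biUnion, Finset.mem_image, Finset.mem_Ico]
    constructor
    · rintro (⟨l, ⟨hl1, hl2⟩, m', hm', rfl⟩ | ⟨m', hm', rfl⟩)
      · obtain ⟨h1, h2, h3⟩ := (ih y m' hc').1 hm'
        refine ⟨by simp [h1], ?_, ?_⟩
        · intro i hi
          cases i with
          | zero => simp only [List.getD_cons_zero]; exact ⟨hl1, hl2.le⟩
          | succ i =>
            simp only [List.getD_cons_succ]
            exact h2 i (by simpa using hi)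
        · intro i hi
          cases i with
          | zero =>
            simp only [List.getD_cons_zero, List.getD_cons_succ]
            have := (h2 0 (by rw [← h1]; simpa using hi)).1
            simp only [List.getD_cons_zero] at this
            omega
          | succ i =>
            simp only [List.getD_cons_succ]
            exact h3 i (by simpa using hi)
      · obtain ⟨h1, h2, h3⟩ := (ih (y + 1) m' hc).1 hm'
        refine ⟨by simp [h1], ?_, ?_⟩
        · intro i hi
          cases i with
          | zero => simp only [List.getD_cons_zero]; exact ⟨hxy, le_rfl⟩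
          | succ i =>
            simp only [List.getD_cons_succ]
            have := h2 i (by simpa using hi)
            refine ⟨?_, this.2⟩
            cases i with
            | zero => simp only [List.getD_cons_zero] at this ⊢; omega
            | succ i => simpa using this.1
        · intro i hi
          cases i with
          | zero =>
            simp only [List.getD_cons_zero, List.getD_cons_succ]
            have := (h2 0 (by rw [← h1]; simpa using hi)).1
            simp only [List.getD_cons_zero] at this
            omega
          | succ i =>
            simp only [List.getD_cons_succ]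
            exact h3 i (by simpa using hi)
    · rintro ⟨h1, h2, h3⟩
      cases m with
      | nil => simp at h1
      | cons l m' =>
        have h1' : m'.length = w.length := by simpa using h1
        have h0 := h2 0 (by simp)
        simp only [List.getD_cons_zero] at h0
        rcases lt_or_eq_of_le h0.2 with hl | hl
        · left
          refine ⟨l, ⟨h0.1, hl⟩, m', (ih y m' hc').2 ⟨h1', ?_, h3.tail⟩, rfl⟩
          intro i hi
          have := h2 (i + 1) (by simpa using hi)
          simpa only [List.getD_cons_succ] using this
        · right
          subst hl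
          refine ⟨m', (ih _ m' hc).2 ⟨h1', ?_, h3.tail⟩, rfl⟩
          intro i hi
          have := h2 (i + 1) (by simpa using hi)
          simp only [List.getD_cons_succ] at this
          refine ⟨?_, this.2⟩
          cases i with
          | zero =>
            have h4 := h3 0 (by simp; omega)
            simp only [List.getD_cons_zero, List.getD_cons_succ] at h4 ⊢
            omega
          | succ i => simpa using this.1

theorem tsumAux_eq_sum {A : Type*} [AddCommGroup A] (w : List ℤ) : ∀ (x : ℤ) (g : List ℤ → A),
    Chn x w → tsumAux x w g = ∑ m ∈ rowsAux x w, g m := by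
  induction w with
  | nil => intro x g _; simp [tsumAux, rowsAux]
  | cons y w ih =>
    intro x g hc
    obtain ⟨hxy, hc⟩ := hc
    have hc' : Chn y w := hc.mono (by omega)
    rw [tsumAux_cons, ih _ _ hc, rowsAux, Finset.sum_union]
    · congr 1
      · rw [Finset.sum_biUnion]
        · unfold esum
          rw [Finset.Ico_eq_empty_of_le hxy, Finset.sum_empty, sub_zero]
          refine Finset.sum_congr rfl fun l _ => ?_
          beta_reduce
          rw [ih _ _ hc', Finset.sum_image]
          intro a _ b _ hab
          exact (List.cons.inj hab).2
        · intro l _ l' _ hll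
          rw [Function.onFun, Finset.disjoint_left]
          intro m hm hm'
          rw [Finset.mem_image] at hm hm'
          obtain ⟨a, _, rfl⟩ := hm
          obtain ⟨b, _, hb⟩ := hm'
          exact hll (List.cons.inj hb).1.symm
      · rw [Finset.sum_image]
        intro a _ b _ hab
        exact (List.cons.inj hab).2
    · rw [Finset.disjoint_left]
      intro m hm hm'
      rw [Finset.mem_biUnion] at hm
      obtain ⟨l, hl, hm⟩ := hm
      rw [Finset.mem_image] at hm hm'
      obtain ⟨a, _, rfl⟩ := hm
      obtain ⟨b, _, hb⟩ := hm'
      have := (List.cons.inj hb).1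
      rw [Finset.mem_Ico] at hl
      omega

/-- Monotone triangles with bottom row given by a list. -/
structure IsMTL (n : ℕ) (w : List ℤ) (a : ℕ → ℕ → ℤ) : Prop where
  strict : ∀ p q, 1 ≤ q → q < p → p ≤ n → a p q < a p (q + 1)
  interlace : ∀ p q, 1 ≤ q → q ≤ p → p < n → a (p + 1) q ≤ a p q ∧ a p q ≤ a (p + 1) (q + 1)
  bottom : ∀ q, 1 ≤ q → q ≤ n → a n q = w.getD (q - 1) 0
  outside : ∀ p q, ¬ (1 ≤ q ∧ q ≤ p ∧ p ≤ n) → a p q = 0

/-- The rows interlacing with a row. -/
noncomputable def rows : List ℤ → Finset (List ℤ)
  | [] => ∅
  | x :: w => rowsAux x w

/-- The list as a row of an array. -/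
def rowfun (w : List ℤ) (q : ℕ) : ℤ := if q = 0 then 0 else w.getD (q - 1) 0

open Classical in
/-- The monotone triangles with a given bottom row, as a finite set. -/
noncomputable def FF : ℕ → List ℤ → Finset (ℕ → ℕ → ℤ)
  | 0, _ => {fun _ _ => 0}
  | n + 1, w => (rows w).biUnion fun m =>
      (FF n m).image fun a => Function.update a (n + 1) (rowfun w)

theorem mem_rows {w m : List ℤ} (hw : SI w) : m ∈ rows w ↔
    m.length + 1 = w.length ∧
    (∀ i, i < m.length → w.getD i 0 ≤ m.getD i 0 ∧ m.getD i 0 ≤ w.getD (i + 1) 0) ∧ SI m := by
  cases w with
  | nil => simp [rows]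
  | cons x w =>
    have hc : Chn x w := hw.chn.mono (by omega)
    rw [rows, mem_rowsAux w x m hc]
    constructor
    · rintro ⟨h1, h2, h3⟩
      refine ⟨by simp [h1], fun i hi => ?_, h3⟩
      rw [List.getD_cons_succ]
      exact h2 i (by omega)
    · rintro ⟨h1, h2, h3⟩
      have h1' : m.length = w.length := by simpa using h1
      refine ⟨h1', fun i hi => ?_, h3⟩
      have := h2 i (by omega)
      rw [List.getD_cons_succ] at this
      exact this

theorem getD_of_le {w : List ℤ} {i : ℕ} (h : w.length ≤ i) : w.getD i 0 = 0 := by
  rw [List.getD_eq_default _ _ h]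

open Classical in
theorem mem_FF : ∀ (n : ℕ) (w : List ℤ), SI w → w.length = n → ∀ a : ℕ → ℕ → ℤ,
    a ∈ FF n w ↔ IsMTL n w a := by
  intro n
  induction n with
  | zero =>
    intro w _ hw a
    rw [FF, Finset.mem_singleton]
    constructor
    · rintro rfl
      exact ⟨fun p q h1 h2 h3 => by omega, fun p q h1 h2 h3 => by omega,
        fun q h1 h2 => by omega, fun _ _ _ => rfl⟩
    · intro h
      funext p q
      exact h.outside p q (by omega)
  | succ n ih =>
    intro w hw hn a
    rw [FF, Finset.mem_biUnion]
    simp only [Finset.mem_image]
    constructor
    · rintro ⟨m, hm, a', ha', rfl⟩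
      rw [mem_rows hw] at hm
      obtain ⟨h1, h2, h3⟩ := hm
      have hm : m.length = n := by omega
      have hM := (ih m h3 hm a').1 ha'
      refine ⟨?_, ?_, ?_, ?_⟩
      · intro p q hq hqp hp
        by_cases hpn : p = n + 1
        · subst hpn
          rw [Function.update_self]
          unfold rowfun
          rw [if_neg (by omega), if_neg (by omega)]
          have := hw (q - 1) (by omega)
          have e : q - 1 + 1 = q := by omega
          rw [e] at this
          simpa using this
        · rw [Function.update_of_ne hpn]
          exact hM.strict p q hq hqp (by omega)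
      · intro p q hq hqp hp
        by_cases hpn : p = n
        · subst hpn
          rw [Function.update_self, Function.update_of_ne (by omega)]
          unfold rowfun
          rw [if_neg (by omega), if_neg (by omega), hM.bottom q hq hqp]
          have := h2 (q - 1) (by omega)
          have e : q - 1 + 1 = q := by omega
          rw [e] at this
          simpa using this
        · rw [Function.update_of_ne (by omega : p + 1 ≠ n + 1),
            Function.update_of_ne (by omega : p ≠ n + 1)]
          exact hM.interlace p q hq hqp (by omega)
      · intro q hq hqn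
        rw [Function.update_self]
        unfold rowfun
        rw [if_neg (by omega)]
      · intro p q hpq
        by_cases hpn : p = n + 1
        · subst hpn
          rw [Function.update_self]
          unfold rowfun
          split_ifs with h0
          · rfl
          · exact getD_of_le (by omega)
        · rw [Function.update_of_ne hpn]
          exact hM.outside p q (by omega)
    · intro h
      set m : List ℤ := (List.range n).map fun i => a n (i + 1) with hm
      have hml : m.length = n := by simp [hm]
      have hmD : ∀ i, i < n → m.getD i 0 = a n (i + 1) := by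
        intro i hi
        rw [List.getD_eq_getElem _ _ (by omega)]
        simp [hm]
      have hSI : SI m := by
        intro i hi
        rw [hmD i (by omega), hmD (i + 1) (by omega)]
        exact h.strict n (i + 1) (by omega) (by omega) (by omega)
      refine ⟨m, (mem_rows hw).2 ⟨by omega, fun i hi => ?_, hSI⟩,
        Function.update a (n + 1) (fun _ => 0), (ih m hSI hml _).2 ⟨?_, ?_, ?_, ?_⟩, ?_⟩
      · rw [hmD i (by omega)]
        have h1 := h.interlace n (i + 1) (by omega) (by omega) (by omega)
        rw [h.bottom (i + 1) (by omega) (by omega), h.bottom (i + 1 + 1) (by omega) (by omega)] at h1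
        simpa using h1
      · intro p q hq hqp hp
        rw [Function.update_of_ne (by omega)]
        exact h.strict p q hq hqp (by omega)
      · intro p q hq hqp hp
        rw [Function.update_of_ne (by omega), Function.update_of_ne (by omega)]
        exact h.interlace p q hq hqp (by omega)
      · intro q hq hqn
        rw [Function.update_of_ne (by omega), hmD (q - 1) (by omega)]
        congr 1
        omega
      · intro p q hpq
        by_cases hpn : p = n + 1
        · subst hpn
          rw [Function.update_self]
        · rw [Function.update_of_ne hpn]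
          exact h.outside p q (by omega)
      · funext p
        by_cases hpn : p = n + 1
        · subst hpn
          rw [Function.update_self]
          funext q
          unfold rowfun
          split_ifs with h0
          · exact (h.outside _ _ (by omega)).symm
          · by_cases hq : q ≤ n + 1
            · exact (h.bottom q (by omega) hq).symm
            · rw [getD_of_le (by omega)]
              exact (h.outside _ _ (by omega)).symm
        · rw [Function.update_of_ne hpn, Function.update_of_ne hpn]

theorem card_FF : ∀ (n : ℕ) (w : List ℤ), SI w → w.length = n →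
    alphaN ℤ n w = ((FF n w).card : ℤ) := by
  intro n
  induction n with
  | zero => intro w _ _; simp [alphaN, FF]
  | succ n ih =>
    intro w hw hn
    classical
    have hrow : ∀ m ∈ rows w, SI m ∧ m.length = n := by
      intro m hm
      rw [mem_rows hw] at hm
      exact ⟨hm.2.2, by omega⟩
    have h1 : alphaN ℤ (n + 1) w = ∑ m ∈ rows w, alphaN ℤ n m := by
      cases w with
      | nil => simp at hn
      | cons x w => exact tsumAux_eq_sum w x _ (hw.chn.mono (by omega))
    rw [h1, FF, Finset.card_biUnion]
    · push_cast
      refine Finset.sum_congr rfl fun m hm => ?_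
      rw [ih m (hrow m hm).1 (hrow m hm).2, Finset.card_image_of_injOn]
      intro a ha b hb hab
      have ha' := (mem_FF n m (hrow m hm).1 (hrow m hm).2 a).1 ha
      have hb' := (mem_FF n m (hrow m hm).1 (hrow m hm).2 b).1 hb
      funext p
      by_cases hpn : p = n + 1
      · subst hpn
        funext q
        rw [ha'.outside _ _ (by omega), hb'.outside _ _ (by omega)]
      · have := congrFun hab p
        simp only [Function.update_of_ne hpn] at this
        exact this
    · intro m hm m' hm' hmm
      rw [Function.onFun, Finset.disjoint_left]
      intro a ha ha'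
      rw [Finset.mem_image] at ha ha'
      obtain ⟨b, hb, hb2⟩ := ha
      obtain ⟨c, hc, hc2⟩ := ha'
      have hb' := (mem_FF n m (hrow m hm).1 (hrow m hm).2 b).1 hb
      have hc' := (mem_FF n m' (hrow m' hm').1 (hrow m' hm').2 c).1 hc
      apply hmm
      refine List.ext_getElem (by rw [(hrow m hm).2, (hrow m' hm').2]) fun i h1 h2 => ?_
      have hin : i < n := by rw [← (hrow m hm).2]; exact h1
      have e1 := hb'.bottom (i + 1) (by omega) (by omega)
      have e2 := hc'.bottom (i + 1) (by omega) (by omega)
      have e3 : b n = c n := by
        have := congrFun (hb2.trans hc2.symm) n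
        rwa [Function.update_of_ne (by omega), Function.update_of_ne (by omega)] at this
      rw [e3] at e1
      rw [Nat.add_sub_cancel, List.getD_eq_getElem _ _ h1] at e1
      rw [Nat.add_sub_cancel, List.getD_eq_getElem _ _ h2] at e2
      rw [← e1, ← e2]

theorem finite_IsMTL {n : ℕ} {w : List ℤ} (hw : SI w) (hn : w.length = n) :
    {a | IsMTL n w a}.Finite := by
  have : {a | IsMTL n w a} = (FF n w : Set (ℕ → ℕ → ℤ)) := by
    ext a
    exact (mem_FF n w hw hn a).symm
  rw [this]
  exact Finset.finite_toSet _

theorem ncard_IsMTL {n : ℕ} {w : List ℤ} (hw : SI w) (hn : w.length = n) :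
    (({a | IsMTL n w a}.ncard : ℕ) : ℤ) = alphaN ℤ n w := by
  have : {a | IsMTL n w a} = (FF n w : Set (ℕ → ℕ → ℤ)) := by
    ext a
    exact (mem_FF n w hw hn a).symm
  rw [this, Set.ncard_coe_finset, card_FF n w hw hn]

end LibMT
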