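import Mathlib

/-!
The quotient of the determinant with exponents `0,1,3,4,6,7,…` by the Vandermonde determinant,
its degree in one variable and its specialisation at `v, ζ v` for a primitive third root of
unity `ζ`; the interpolation identity.
-/

namespace LibMT

open Finset
open scoped Polynomial

variable {K : Type*} [Field K]

/-- The exponents `0,1,3,4,6,7,…`. -/
def ex (j : ℕ) : ℕ := j + j / 2

theorem ex_add_two (j : ℕ) : ex (j + 2) = ex j + 3 := by
  unfold ex
  omega

/-- The matrix with exponents `ex`. -/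
def exMat {N : ℕ} (x : Fin N → K) : Matrix (Fin N) (Fin N) K :=
  Matrix.of fun i j => x i ^ ex j

/-- The determinant quotient for a tuple. -/
noncomputable def sT {N : ℕ} (x : Fin N → K) : K := (exMat x).det / (Matrix.vandermonde x).det

theorem sT_comp_perm {N : ℕ} (y : Fin N → K) (e : Equiv.Perm (Fin N)) : sT (y ∘ e) = sT y := by
  unfold sT
  have h1 : exMat (y ∘ e) = (exMat y).submatrix e id := rfl
  have h2 : Matrix.vandermonde (y ∘ e) = (Matrix.vandermonde y).submatrix e id := rfl
  rw [h1, h2, Matrix.det_permute, Matrix.det_permute]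
  refine mul_div_mul_left _ _ ?_
  rcases Int.units_eq_one_or (Equiv.Perm.sign e) with h | h <;> simp [h]

theorem sT_comp_equiv {N M : ℕ} (y : Fin N → K) (e : Fin M ≃ Fin N) : sT (y ∘ e) = sT y := by
  have h : M = N := by simpa using Fintype.card_congr e
  subst h
  exact sT_comp_perm y e

/-- The determinant quotient for a finite set. -/
noncomputable def sF (U : Finset K) : K := sT fun i : Fin U.card => ((U.equivFin.symm i : U) : K)

theorem sF_eq_sT {N : ℕ} {U : Finset K} (y : Fin N → K) (hy : Function.Injective y)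
    (hU : ∀ a, a ∈ U ↔ ∃ i, y i = a) : sF U = sT y := by
  have hf : Function.Bijective (fun i : Fin N => (⟨y i, (hU _).2 ⟨i, rfl⟩⟩ : U)) := by
    constructor
    · intro i j hij
      exact hy (congrArg Subtype.val hij)
    · rintro ⟨a, ha⟩
      obtain ⟨i, hi⟩ := (hU a).1 ha
      exact ⟨i, Subtype.ext hi⟩
  set e : Fin U.card ≃ Fin N := U.equivFin.symm.trans (Equiv.ofBijective _ hf).symm with he
  rw [← sT_comp_equiv y e]
  unfold sF
  congr 1
  funext i
  have : (Equiv.ofBijective _ hf) (e i) = U.equivFin.symm i := by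
    rw [he]; simp
  have h2 := congrArg Subtype.val this
  exact h2.symm

omit [Field K] in
theorem exists_enum (V : Finset K) {N : ℕ} (h : V.card = N) :
    ∃ y : Fin N → K, Function.Injective y ∧ ∀ a, a ∈ V ↔ ∃ i, y i = a := by
  subst h
  refine ⟨fun i => ((V.equivFin.symm i : V) : K), ?_, ?_⟩
  · intro i j hij
    exact V.equivFin.symm.injective (Subtype.ext hij)
  · intro a
    constructor
    · intro ha
      exact ⟨V.equivFin ⟨a, ha⟩, by simp⟩
    · rintro ⟨i, rfl⟩
      exact (V.equivFin.symm i).2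

theorem det_vandermonde_cons {n : ℕ} (w : K) (y : Fin n → K) :
    (Matrix.vandermonde (Fin.cons w y : Fin (n + 1) → K)).det
      = (∏ i, (y i - w)) * (Matrix.vandermonde y).det := by
  rw [Matrix.det_vandermonde, Matrix.det_vandermonde, Fin.prod_univ_succ]
  congr 1
  · rw [Fin.prod_Ioi_zero]
    simp
  · refine Finset.prod_congr rfl fun i _ => ?_
    rw [Fin.prod_Ioi_succ]
    simp

omit [Field K] in
theorem cons_injective {n : ℕ} {w : K} {y : Fin n → K} (hy : Function.Injective y)
    (hw : ∀ i, y i ≠ w) : Function.Injective (Fin.cons w y : Fin (n + 1) → K) := by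
  rw [Fin.cons_injective_iff]
  exact ⟨fun ⟨i, hi⟩ => hw i hi, hy⟩

theorem prod_X_sub_C_dvd {n : ℕ} {y : Fin n → K} (hy : Function.Injective y) {P : K[X]}
    (hP : ∀ i, P.eval (y i) = 0) : (∏ i, (Polynomial.X - Polynomial.C (y i))) ∣ P := by
  refine Finset.prod_dvd_of_coprime ?_ ?_
  · intro i _ j _ hij
    exact Polynomial.pairwise_coprime_X_sub_C hy hij
  · intro i _
    exact Polynomial.dvd_iff_isRoot.2 (hP i)

variable [DecidableEq K]

/-- The degree property. -/
theorem sF_degree {m : ℕ} {V : Finset K} (hV : V.card = 2 * m + 1) :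
    ∃ Q : K[X], Q.natDegree ≤ m ∧ ∀ w, w ∉ V → sF (insert w V) = Q.eval w := by
  obtain ⟨y, hy, hyV⟩ := exists_enum V hV
  -- the polynomial of the numerator
  set D : Fin (2 * m + 1 + 1) → K := fun j =>
    (Matrix.of fun i l : Fin (2 * m + 1) => y i ^ ex (j.succAbove l)).det with hD
  set P : K[X] := ∑ j : Fin (2 * m + 1 + 1),
    Polynomial.C ((-1) ^ (j : ℕ) * D j) * Polynomial.X ^ ex j with hP
  have hPe : ∀ w, P.eval w = (exMat (Fin.cons w y : Fin (2 * m + 1 + 1) → K)).det := by
    intro w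
    rw [Matrix.det_succ_row_zero, hP, Polynomial.eval_finsetSum]
    refine Finset.sum_congr rfl fun j _ => ?_
    simp only [Polynomial.eval_mul, Polynomial.eval_C, Polynomial.eval_pow, Polynomial.eval_X]
    have : (exMat (Fin.cons w y : Fin (2 * m + 1 + 1) → K)).submatrix Fin.succ j.succAbove
        = Matrix.of fun i l : Fin (2 * m + 1) => y i ^ ex (j.succAbove l) := by
      ext i l
      simp [exMat]
    rw [this]
    simp only [exMat, Matrix.of_apply, Fin.cons_zero, hD]
    ring
  have hPdeg : P.natDegree ≤ 3 * m + 1 := by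
    refine Polynomial.natDegree_sum_le_of_forall_le _ _ fun j _ => ?_
    refine (Polynomial.natDegree_C_mul_X_pow_le _ _).trans ?_
    have := j.2
    unfold ex
    omega
  have hroot : ∀ i, P.eval (y i) = 0 := by
    intro i
    rw [hPe]
    refine Matrix.det_zero_of_row_eq (i := 0) (j := i.succ) (Fin.succ_ne_zero i).symm ?_
    funext l
    simp [exMat]
  obtain ⟨Q, hQ⟩ := prod_X_sub_C_dvd hy hroot
  have hQdeg : Q.natDegree ≤ m := by
    by_cases hQ0 : Q = 0
    · rw [hQ0]; simp
    · have hmonic : (∏ i, (Polynomial.X - Polynomial.C (y i)) : K[X]).Monic :=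
        Polynomial.monic_prod_of_monic _ _ fun i _ => Polynomial.monic_X_sub_C _
      have h1 : (∏ i, (Polynomial.X - Polynomial.C (y i)) : K[X]).natDegree = 2 * m + 1 := by
        rw [Polynomial.natDegree_prod_of_monic _ _ fun i _ => Polynomial.monic_X_sub_C _]
        simp
      have h2 := hmonic.natDegree_mul' hQ0
      rw [← hQ, h1] at h2
      omega
  set E : K := (Matrix.vandermonde y).det with hE
  have hE0 : E ≠ 0 := Matrix.det_vandermonde_ne_zero_iff.2 hy
  refine ⟨Polynomial.C (- 1 / E) * Q, (Polynomial.natDegree_C_mul_le _ _).trans hQdeg, ?_⟩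
  intro w hw
  have hwy : ∀ i, y i ≠ w := fun i h => hw ((hyV w).2 ⟨i, h⟩)
  have h1 : sF (insert w V) = sT (Fin.cons w y : Fin (2 * m + 1 + 1) → K) := by
    refine sF_eq_sT _ (cons_injective hy hwy) fun a => ?_
    rw [Finset.mem_insert, hyV]
    constructor
    · rintro (rfl | ⟨i, rfl⟩)
      · exact ⟨0, by simp⟩
      · exact ⟨i.succ, by simp⟩
    · rintro ⟨i, hi⟩
      induction i using Fin.cases with
      | zero => left; simpa using hi.symm
      | succ i => right; exact ⟨i, by simpa using hi⟩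
  rw [h1, sT, det_vandermonde_cons, ← hPe w, hQ, Polynomial.eval_mul, Polynomial.eval_prod,
    Polynomial.eval_mul, Polynomial.eval_C, ← hE]
  have h2 : ∏ i, (Polynomial.X - Polynomial.C (y i) : K[X]).eval w
      = - ∏ i, (y i - w) := by
    have : ∀ i ∈ (Finset.univ : Finset (Fin (2 * m + 1))),
        (Polynomial.X - Polynomial.C (y i) : K[X]).eval w = (-1) * (y i - w) := by
      intro i _; simp
    rw [Finset.prod_congr rfl this, Finset.prod_mul_distrib, Finset.prod_const, Finset.card_univ,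
      Fintype.card_fin, Odd.neg_one_pow ⟨m, rfl⟩, neg_one_mul]
  rw [h2]
  have h3 : ∏ i, (y i - w) ≠ 0 := Finset.prod_ne_zero_iff.2 fun i _ => sub_ne_zero.2 (hwy i)
  field_simp

omit [DecidableEq K] in
/-- The matrix after the column operations. -/
def shMat {n : ℕ} (z : Fin (n + 2) → K) (a : K) : Matrix (Fin (n + 2)) (Fin (n + 2)) K :=
  Matrix.of fun i => Fin.cons 1 (Fin.cons (z i) fun j : Fin n => z i ^ ex (j : ℕ) * (z i ^ 3 - a))

omit [DecidableEq K] in
theorem shMat_zero {n : ℕ} (z : Fin (n + 2) → K) (a : K) (i : Fin (n + 2)) :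
    shMat z a i 0 = 1 := rfl

omit [DecidableEq K] in
theorem shMat_one {n : ℕ} (z : Fin (n + 2) → K) (a : K) (i : Fin (n + 2)) :
    shMat z a i (Fin.succ 0) = z i := rfl

omit [DecidableEq K] in
theorem shMat_succ {n : ℕ} (z : Fin (n + 2) → K) (a : K) (i : Fin (n + 2)) (j : Fin n) :
    shMat z a i j.succ.succ = z i ^ ex (j : ℕ) * (z i ^ 3 - a) := rfl

omit [DecidableEq K] in
/-- Column operations. -/
theorem det_exMat_shift {n : ℕ} (z : Fin (n + 2) → K) (a : K) :
    (exMat z).det = (shMat z a).det := by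
  set E' : Matrix (Fin (n + 2)) (Fin (n + 2)) K :=
    Matrix.of fun l j => if (l : ℕ) + 2 = j then - a else 0 with hE'
  have hdet : (1 + E').det = 1 := by
    rw [Matrix.det_of_isUpperTriangular]
    · refine Finset.prod_eq_one fun i _ => ?_
      simp [hE']
    · intro i j hij
      have hij' : j < i := hij
      have h1 : i ≠ j := (ne_of_lt hij').symm
      have h2 : ¬ ((i : ℕ) + 2 = j) := by
        have : (j : ℕ) < i := hij'
        omega
      simp [hE', h1, h2]
  symm
  refine Matrix.det_eq_of_eq_mul_det_one _ hdet ?_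
  rw [mul_add, mul_one]
  ext i j
  rw [Matrix.add_apply, Matrix.mul_apply]
  induction j using Fin.cases with
  | zero =>
    rw [Finset.sum_eq_zero]
    · rw [shMat_zero]
      simp [exMat, ex]
    · intro l _
      simp [hE']
  | succ j =>
    induction j using Fin.cases with
    | zero =>
      rw [Finset.sum_eq_zero]
      · rw [shMat_one]
        simp [exMat, ex]
      · intro l _
        simp [hE']
    | succ j =>
      rw [shMat_succ, Finset.sum_eq_single (j.castSucc.castSucc)]
      · simp only [exMat, hE', Matrix.of_apply, Fin.val_succ, Fin.val_castSucc,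
          if_true, ex_add_two]
        ring
      · intro l _ hl
        have : ¬ ((l : ℕ) = j) := by
          intro h
          apply hl
          ext
          simp only [Fin.val_castSucc]
          omega
        simp [hE', this]
      · intro h
        exact absurd (Finset.mem_univ _) h

omit [DecidableEq K] in
theorem det_first_row {n : ℕ} (M : Matrix (Fin (n + 1)) (Fin (n + 1)) K)
    (h : ∀ j : Fin n, M 0 j.succ = 0) :
    M.det = M 0 0 * (M.submatrix Fin.succ Fin.succ).det := by
  rw [Matrix.det_succ_row_zero, Fin.sum_univ_succ, Finset.sum_eq_zero]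
  · simp
  · intro j _
    rw [h j]
    ring

omit [DecidableEq K] in
theorem det_exMat_special {n : ℕ} {v w : K} (hvw : w ^ 3 = v ^ 3) (x : Fin n → K) :
    (exMat (Fin.cons v (Fin.cons w x : Fin (n + 1) → K) : Fin (n + 2) → K)).det
      = (w - v) * ((∏ i, (x i ^ 3 - v ^ 3)) * (exMat x).det) := by
  set z : Fin (n + 2) → K := Fin.cons v (Fin.cons w x : Fin (n + 1) → K) with hz
  have hz0 : z 0 = v := rfl
  have hz1 : z (Fin.succ 0) = w := rfl
  have hz2 : ∀ i : Fin n, z i.succ.succ = x i := fun i => rfl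
  have hB : ((∏ i, (x i ^ 3 - v ^ 3)) * (exMat x).det)
      = (Matrix.of fun i j : Fin n => x i ^ ex (j : ℕ) * (x i ^ 3 - v ^ 3)).det := by
    rw [← Matrix.det_mul_column]
    congr 1
    ext i j
    simp [exMat, mul_comm]
  rw [hB, det_exMat_shift _ (v ^ 3), Matrix.det_succ_row_zero, Fin.sum_univ_succ,
    Fin.sum_univ_succ, Finset.sum_eq_zero]
  · have e0 : ((shMat z (v ^ 3)).submatrix Fin.succ (Fin.succAbove 0)).det
        = w * (Matrix.of fun i j : Fin n => x i ^ ex (j : ℕ) * (x i ^ 3 - v ^ 3)).det := by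
      rw [det_first_row]
      · congr 1
      · intro j
        rw [Matrix.submatrix_apply, Fin.zero_succAbove, shMat_succ, hz1, hvw]
        ring
    have e1 : ((shMat z (v ^ 3)).submatrix Fin.succ (Fin.succAbove (Fin.succ 0))).det
        = 1 * (Matrix.of fun i j : Fin n => x i ^ ex (j : ℕ) * (x i ^ 3 - v ^ 3)).det := by
      rw [det_first_row]
      · congr 1
      · intro j
        rw [Matrix.submatrix_apply, Fin.succ_succAbove_succ, Fin.zero_succAbove, shMat_succ, hz1,
          hvw]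
        ring
    rw [e0, e1, shMat_zero, shMat_one, hz0]
    simp
    ring
  · intro j _
    rw [shMat_succ, hz0]
    ring

/-- The specialisation property. -/
theorem sF_special {ζ : K} (hζ : ζ ^ 2 + ζ + 1 = 0) {m : ℕ} {Y : Finset K} (hY : Y.card = m)
    {v : K} (hv : v ∉ Y) (hv' : ζ * v ∉ Y) (hne : ζ * v ≠ v) :
    sF (insert v (insert (ζ * v) Y)) = (∏ j ∈ Y, (j - ζ ^ 2 * v)) * sF Y := by
  obtain ⟨x, hx, hxY⟩ := exists_enum Y hY
  have hζ3 : ζ ^ 3 = 1 := by linear_combination (ζ - 1) * hζ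
  have hx1 : ∀ i, x i ≠ ζ * v := fun i h => hv' ((hxY _).2 ⟨i, h⟩)
  have hx0 : ∀ i, x i ≠ v := fun i h => hv ((hxY _).2 ⟨i, h⟩)
  have h1 : sF (insert v (insert (ζ * v) Y))
      = sT (Fin.cons v (Fin.cons (ζ * v) x : Fin (m + 1) → K) : Fin (m + 2) → K) := by
    refine sF_eq_sT _ (cons_injective (cons_injective hx hx1) ?_) fun a => ?_
    · intro i
      induction i using Fin.cases with
      | zero => simpa using hne
      | succ i => simpa using hx0 i
    rw [Finset.mem_insert, Finset.mem_insert, hxY]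
    constructor
    · rintro (rfl | rfl | ⟨i, rfl⟩)
      · exact ⟨0, by simp⟩
      · exact ⟨Fin.succ 0, by simp⟩
      · exact ⟨i.succ.succ, by simp⟩
    · rintro ⟨i, hi⟩
      induction i using Fin.cases with
      | zero => left; simpa using hi.symm
      | succ i =>
        induction i using Fin.cases with
        | zero => right; left; simpa using hi.symm
        | succ i => right; right; exact ⟨i, by simpa using hi⟩
  have h2 : sF Y = sT x := sF_eq_sT x hx hxY
  have h3 : ∏ j ∈ Y, (j - ζ ^ 2 * v) = ∏ i, (x i - ζ ^ 2 * v) := by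
    have : Y = Finset.univ.image x := by
      ext a; rw [hxY]; simp
    rw [this, Finset.prod_image fun i _ j _ hij => hx hij]
  rw [h1, h2, h3]
  unfold sT
  rw [det_exMat_special (by rw [mul_pow, hζ3, one_mul]), det_vandermonde_cons,
    det_vandermonde_cons, Fin.prod_univ_succ]
  simp only [Fin.cons_zero, Fin.cons_succ]
  have hE0 : (Matrix.vandermonde x).det ≠ 0 := Matrix.det_vandermonde_ne_zero_iff.2 hx
  have h4 : ∏ i, (x i ^ 3 - v ^ 3)
      = (∏ i, (x i - v)) * (∏ i, (x i - ζ * v)) * ∏ i, (x i - ζ ^ 2 * v) := by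
    rw [← Finset.prod_mul_distrib, ← Finset.prod_mul_distrib]
    refine Finset.prod_congr rfl fun i _ => ?_
    linear_combination ((x i) ^ 2 * v - x i * v ^ 2 * ζ) * hζ + v ^ 3 * hζ3
  have h5 : ∏ i, (x i - v) ≠ 0 := Finset.prod_ne_zero_iff.2 fun i _ => sub_ne_zero.2 (hx0 i)
  have h6 : ∏ i, (x i - ζ * v) ≠ 0 := Finset.prod_ne_zero_iff.2 fun i _ => sub_ne_zero.2 (hx1 i)
  have h7 : ζ * v - v ≠ 0 := sub_ne_zero.2 hne
  rw [h4]
  generalize ζ * v - v = d at h7 ⊢
  generalize (∏ i, (x i - ζ * v)) = p₁ at h6 ⊢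
  generalize (∏ i, (x i - v)) = p₂ at h5 ⊢
  generalize (∏ i, (x i - ζ ^ 2 * v)) = p₃
  field_simp

/-- The interpolation identity. -/
theorem star {ζ : K} (hζ : ζ ^ 2 + ζ + 1 = 0) (hζ1 : ζ ≠ 1) {m : ℕ} {V : Finset K}
    (hV3 : ∀ a ∈ V, ∀ b ∈ V, a ^ 3 = b ^ 3 → a = b) (hV0 : ∀ a ∈ V, a ≠ 0)
    (hV : V.card = 2 * m + 1) {r : K[X]} (hr : r.natDegree ≤ m) {t : K} (ht : t ∉ V) :
    r.eval (ζ ^ 2 * t) * sF (insert t V) = ∑ v ∈ V, r.eval v * sF (V.erase v)
      * (∏ j ∈ V.erase v, (j - ζ ^ 2 * v) / (j - v)) * ∏ j ∈ V.erase v, (j - ζ ^ 2 * t) := by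
  have hζ3 : ζ ^ 3 = 1 := by linear_combination (ζ - 1) * hζ
  have hζ0 : ζ ≠ 0 := by
    rintro rfl
    norm_num at hζ3
  obtain ⟨Q, hQ, hQe⟩ := sF_degree hV
  set P₁ : K[X] := r.comp (Polynomial.C (ζ ^ 2) * Polynomial.X) * Q with hP₁
  set P₂ : K[X] := ∑ v ∈ V, Polynomial.C (r.eval v * sF (V.erase v)
      * (∏ j ∈ V.erase v, (j - ζ ^ 2 * v) / (j - v)))
      * ∏ j ∈ V.erase v, (Polynomial.C j - Polynomial.C (ζ ^ 2) * Polynomial.X) with hP₂
  have hP₁e : ∀ t, t ∉ V → P₁.eval t = r.eval (ζ ^ 2 * t) * sF (insert t V) := by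
    intro t ht
    rw [hP₁, Polynomial.eval_mul, Polynomial.eval_comp, hQe t ht]
    simp
  have hP₂e : ∀ t, P₂.eval t = ∑ v ∈ V, r.eval v * sF (V.erase v)
      * (∏ j ∈ V.erase v, (j - ζ ^ 2 * v) / (j - v)) * ∏ j ∈ V.erase v, (j - ζ ^ 2 * t) := by
    intro t
    rw [hP₂, Polynomial.eval_finsetSum]
    refine Finset.sum_congr rfl fun v _ => ?_
    rw [Polynomial.eval_mul, Polynomial.eval_C, Polynomial.eval_prod]
    simp
  have hlin : ∀ j : K, (Polynomial.C j - Polynomial.C (ζ ^ 2) * Polynomial.X : K[X]).natDegree ≤ 1 := by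
    intro j
    refine (Polynomial.natDegree_sub_le _ _).trans ?_
    rw [Polynomial.natDegree_C]
    exact max_le (Nat.zero_le _) ((Polynomial.natDegree_C_mul_le _ _).trans
      Polynomial.natDegree_X_le)
  have hd₁ : P₁.natDegree ≤ 2 * m := by
    refine Polynomial.natDegree_mul_le.trans ?_
    have h1 : (r.comp (Polynomial.C (ζ ^ 2) * Polynomial.X)).natDegree ≤ m := by
      refine Polynomial.natDegree_comp_le.trans ?_
      calc r.natDegree * (Polynomial.C (ζ ^ 2) * Polynomial.X : K[X]).natDegree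
          ≤ r.natDegree * 1 := Nat.mul_le_mul_left _
            ((Polynomial.natDegree_C_mul_le _ _).trans Polynomial.natDegree_X_le)
        _ ≤ m := by rw [mul_one]; exact hr
    omega
  have hd₂ : P₂.natDegree ≤ 2 * m := by
    refine Polynomial.natDegree_sum_le_of_forall_le _ _ fun v hv => ?_
    refine (Polynomial.natDegree_C_mul_le _ _).trans ?_
    refine (Polynomial.natDegree_prod_le _ _).trans ?_
    refine (Finset.sum_le_card_nsmul _ _ 1 fun j _ => hlin j).trans ?_
    rw [Finset.card_erase_of_mem hv, hV]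
    simp
  have hne : ∀ v ∈ V, ζ * v ≠ v := by
    intro v hv h
    apply hζ1
    have : (ζ - 1) * v = 0 := by linear_combination h
    exact sub_eq_zero.1 ((mul_eq_zero.1 this).resolve_right (hV0 v hv))
  have hnV : ∀ v ∈ V, ζ * v ∉ V := by
    intro v hv h
    exact hne v hv (hV3 _ h _ hv (by rw [mul_pow, hζ3, one_mul]))
  have hinj : Set.InjOn (fun v => ζ * v) (V : Set K) := fun a _ b _ hab =>
    mul_left_cancel₀ hζ0 hab
  have heq : P₁ = P₂ := by
    refine Polynomial.eq_of_natDegree_lt_card_of_eval_eq' P₁ P₂ (V.image fun v => ζ * v) ?_ ?_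
    · intro t ht
      rw [Finset.mem_image] at ht
      obtain ⟨w, hw, rfl⟩ := ht
      rw [hP₁e _ (hnV w hw), hP₂e, Finset.sum_eq_single w]
      · have e1 : insert (ζ * w) V = insert w (insert (ζ * w) (V.erase w)) := by
          rw [Finset.insert_comm, Finset.insert_erase hw]
        have e2 : ζ ^ 2 * (ζ * w) = w := by
          calc ζ ^ 2 * (ζ * w) = ζ ^ 3 * w := by ring
            _ = w := by rw [hζ3, one_mul]
        rw [e1, sF_special hζ rfl (Finset.notMem_erase w V)
          (fun h => hnV w hw (Finset.mem_of_mem_erase h)) (hne w hw), e2, mul_assoc (r.eval w * _),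
          ← Finset.prod_mul_distrib]
        have e3 : ∏ j ∈ V.erase w, (j - ζ ^ 2 * w) / (j - w) * (j - w)
            = ∏ j ∈ V.erase w, (j - ζ ^ 2 * w) := by
          refine Finset.prod_congr rfl fun j hj => ?_
          exact div_mul_cancel₀ _ (sub_ne_zero.2 (Finset.ne_of_mem_erase hj))
        rw [e3]
        ring
      · intro v hv hvw
        have e2 : w - ζ ^ 2 * (ζ * w) = 0 := by linear_combination (-w) * hζ3
        have e3 : ∏ j ∈ V.erase v, (j - ζ ^ 2 * (ζ * w)) = 0 :=
          Finset.prod_eq_zero (Finset.mem_erase.2 ⟨Ne.symm hvw, hw⟩) e2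
        rw [e3, mul_zero]
      · intro h
        exact absurd hw h
    · rw [Finset.card_image_of_injOn hinj, hV]
      exact max_lt (by omega) (by omega)
  rw [← hP₁e t ht, ← hP₂e t, heq]

/-- The interpolation identity, divided form. -/
theorem star' {ζ : K} (hζ : ζ ^ 2 + ζ + 1 = 0) (hζ1 : ζ ≠ 1) {m : ℕ} {V : Finset K}
    (hV3 : ∀ a ∈ V, ∀ b ∈ V, a ^ 3 = b ^ 3 → a = b) (hV0 : ∀ a ∈ V, a ≠ 0)
    (hV : V.card = 2 * m + 1) {r : K[X]} (hr : r.natDegree ≤ m) {t : K} (ht : t ∉ V)
    (ht' : ζ ^ 2 * t ∉ V) :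
    ∑ v ∈ V, r.eval v / (v - ζ ^ 2 * t) * sF (V.erase v)
      * (∏ j ∈ V.erase v, (j - ζ ^ 2 * v) / (j - v))
      = r.eval (ζ ^ 2 * t) * sF (insert t V) / ∏ j ∈ V, (j - ζ ^ 2 * t) := by
  have h0 : ∏ j ∈ V, (j - ζ ^ 2 * t) ≠ 0 :=
    Finset.prod_ne_zero_iff.2 fun j hj => sub_ne_zero.2 fun h => ht' (h ▸ hj)
  rw [eq_div_iff h0, star hζ hζ1 hV3 hV0 hV hr ht, Finset.sum_mul]
  refine Finset.sum_congr rfl fun v hv => ?_
  rw [← Finset.mul_prod_erase V (fun j => j - ζ ^ 2 * t) hv]
  have : v - ζ ^ 2 * t ≠ 0 := sub_ne_zero.2 fun h => ht' (h ▸ hv)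
  field_simp

end LibMT
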