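import Pool.Agent.LibMT.Kernel

/-!
The iterated row sums are given by polynomials with rational coefficients.
-/

namespace LibMT

open Finset

/-- Functions of an integer environment given by a polynomial with rational coefficients. -/
def PF (f : (ℕ → ℤ) → ℚ) : Prop :=
  ∃ P : MvPolynomial ℕ ℚ, ∀ e : ℕ → ℤ, f e = MvPolynomial.eval (fun i => (e i : ℚ)) P

theorem PF.const (a : ℚ) : PF (fun _ => a) := ⟨MvPolynomial.C a, fun e => by simp⟩

theorem PF.var (i : ℕ) : PF (fun e => (e i : ℚ)) := ⟨MvPolynomial.X i, fun e => by simp⟩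

theorem PF.add {f g : (ℕ → ℤ) → ℚ} (hf : PF f) (hg : PF g) : PF (fun e => f e + g e) := by
  obtain ⟨P, hP⟩ := hf
  obtain ⟨Q, hQ⟩ := hg
  exact ⟨P + Q, fun e => by beta_reduce; rw [map_add, hP, hQ]⟩

theorem PF.mul {f g : (ℕ → ℤ) → ℚ} (hf : PF f) (hg : PF g) : PF (fun e => f e * g e) := by
  obtain ⟨P, hP⟩ := hf
  obtain ⟨Q, hQ⟩ := hg
  exact ⟨P * Q, fun e => by beta_reduce; rw [map_mul, hP, hQ]⟩

theorem PF.sub {f g : (ℕ → ℤ) → ℚ} (hf : PF f) (hg : PF g) : PF (fun e => f e - g e) := by
  obtain ⟨P, hP⟩ := hf
  obtain ⟨Q, hQ⟩ := hg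
  exact ⟨P - Q, fun e => by beta_reduce; rw [map_sub, hP, hQ]⟩

theorem PF.pow {f : (ℕ → ℤ) → ℚ} (hf : PF f) (n : ℕ) : PF (fun e => f e ^ n) := by
  obtain ⟨P, hP⟩ := hf
  exact ⟨P ^ n, fun e => by beta_reduce; rw [map_pow, hP]⟩

theorem PF.sum {ι : Type*} (s : Finset ι) {f : ι → (ℕ → ℤ) → ℚ} (hf : ∀ i ∈ s, PF (f i)) :
    PF (fun e => ∑ i ∈ s, f i e) := by
  classical
  induction s using Finset.induction_on with
  | empty => simpa using PF.const 0
  | insert a s ha ih =>
    simp only [Finset.sum_insert ha]
    exact (hf a (Finset.mem_insert_self _ _)).add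
      (ih fun i hi => hf i (Finset.mem_insert_of_mem hi))

theorem PF.polyEval (S : Polynomial ℚ) (i : ℕ) : PF (fun e => S.eval (e i : ℚ)) := by
  have : ∀ e : ℕ → ℤ, S.eval (e i : ℚ) = ∑ d ∈ Finset.range (S.natDegree + 1),
      S.coeff d * (e i : ℚ) ^ d := fun e => Polynomial.eval_eq_sum_range _
  simp only [this]
  exact PF.sum _ fun d _ => (PF.const _).mul ((PF.var i).pow d)

/-- Substitution. -/
theorem PF.subst {f : (ℕ → ℤ) → ℚ} (hf : PF f) (s : (ℕ → ℤ) → ℕ → ℤ)
    (hs : ∀ i, PF (fun e => (s e i : ℚ))) : PF (fun e => f (s e)) := by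
  obtain ⟨P, hP⟩ := hf
  simp only [hP]
  clear hP
  induction P using MvPolynomial.induction_on with
  | C a => simpa using PF.const a
  | add p q hp hq => simpa using hp.add hq
  | mul_X p i hp => simpa using hp.mul (hs i)

/-- An antiderivative of a monomial. -/
theorem exists_antideriv (d : ℕ) : ∃ S : Polynomial ℚ, ∀ l : ℤ,
    S.eval ((l + 1 : ℤ) : ℚ) - S.eval (l : ℚ) = (l : ℚ) ^ d := by
  refine ⟨Polynomial.C (1 / ((d : ℚ) + 1)) * Polynomial.bernoulli (d + 1), fun l => ?_⟩
  have h := Polynomial.bernoulli_eval_one_add (d + 1) (l : ℚ)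
  rw [Polynomial.eval_mul, Polynomial.eval_C, Polynomial.eval_mul, Polynomial.eval_C]
  push_cast
  rw [add_comm (l : ℚ) 1, h, Nat.add_sub_cancel]
  have : (d : ℚ) + 1 ≠ 0 := by positivity
  push_cast
  field_simp
  ring

theorem PF.esum_aux (P : MvPolynomial ℕ ℚ) (r : ℕ) : ∀ d : ℕ,
    PF (fun e => esum (e r) (e (r + 1)) (fun l =>
      MvPolynomial.eval (fun i => ((Function.update e r l i : ℤ) : ℚ)) P * (l : ℚ) ^ d)) := by
  induction P using MvPolynomial.induction_on with
  | C a =>
    intro d
    obtain ⟨S, hS⟩ := exists_antideriv d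
    have : ∀ e : ℕ → ℤ, esum (e r) (e (r + 1)) (fun l =>
        MvPolynomial.eval (fun i => ((Function.update e r l i : ℤ) : ℚ)) (MvPolynomial.C a)
          * (l : ℚ) ^ d) = a * (S.eval (e (r + 1) : ℚ) - S.eval (e r : ℚ)) := by
      intro e
      simp only [MvPolynomial.eval_C]
      rw [esum_mul_left]
      congr 1
      exact esum_tel _ _ _ (fun l : ℤ => S.eval (l : ℚ)) fun l => hS l
    simp only [this]
    exact (PF.const a).mul ((PF.polyEval S _).sub (PF.polyEval S _))
  | add p q hp hq =>
    intro d
    simp only [map_add, add_mul, esum_add]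
    exact (hp d).add (hq d)
  | mul_X p i hp =>
    intro d
    by_cases hi : i = r
    · subst hi
      refine (hp (d + 1)).imp fun Q hQ e => ?_
      rw [← hQ e]
      beta_reduce
      congr 1
      funext l
      simp only [map_mul, MvPolynomial.eval_X, Function.update_self]
      ring
    · obtain ⟨Q, hQ⟩ := (PF.var i).mul (hp d)
      refine ⟨Q, fun e => ?_⟩
      rw [← hQ e]
      beta_reduce
      rw [← esum_mul_left]
      congr 1
      funext l
      simp only [map_mul, MvPolynomial.eval_X, Function.update_of_ne hi]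
      ring

theorem PF.esum {f : (ℕ → ℤ) → ℚ} (hf : PF f) (r : ℕ) :
    PF (fun e => esum (e r) (e (r + 1)) (fun l => f (Function.update e r l))) := by
  obtain ⟨P, hP⟩ := hf
  refine (PF.esum_aux P r 0).imp fun Q hQ e => ?_
  rw [← hQ e]
  beta_reduce
  congr 1
  funext l
  rw [hP, pow_zero, mul_one]

/-- In-place row summation on environments. -/
noncomputable def hrec (G : (ℕ → ℤ) → ℚ) : ℕ → ℕ → (ℕ → ℤ) → ℚ
  | 0, _, e => G e
  | n + 1, r, e => esum (e r) (e (r + 1)) (fun l => hrec G n (r + 1) (Function.update e r l))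
      + hrec G n (r + 1) (Function.update (Function.update e r (e (r + 1))) (r + 1) (e (r + 1) + 1))

theorem PF.hrec {G : (ℕ → ℤ) → ℚ} (hG : PF G) : ∀ n r : ℕ, PF (hrec G n r) := by
  intro n
  induction n with
  | zero => intro r; exact hG
  | succ n ih =>
    intro r
    refine PF.add ((ih (r + 1)).esum r) ?_
    refine (ih (r + 1)).subst
      (fun e => Function.update (Function.update e r (e (r + 1))) (r + 1) (e (r + 1) + 1)) ?_
    intro i
    by_cases h1 : i = r + 1
    · subst h1
      simp only [Function.update_self]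
      push_cast
      exact (PF.var _).add (PF.const 1)
    · simp only [Function.update_of_ne h1]
      by_cases h2 : i = r
      · subst h2
        simp only [Function.update_self]
        exact PF.var _
      · simp only [Function.update_of_ne h2]
        exact PF.var _

theorem map_range_update (e : ℕ → ℤ) (r s : ℕ) (hs : r ≤ s) (l : ℤ) :
    (List.range r).map (Function.update e s l) = (List.range r).map e := by
  refine List.map_congr_left fun i hi => ?_
  rw [Function.update_of_ne]
  have := List.mem_range.1 hi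
  omega

theorem map_range'_update (e : ℕ → ℤ) (r n s : ℕ) (hs : s < r) (l : ℤ) :
    (List.range' r n).map (Function.update e s l) = (List.range' r n).map e := by
  refine List.map_congr_left fun i hi => ?_
  rw [Function.update_of_ne]
  have := (List.mem_range'_1.1 hi).1
  omega

theorem tsumAux_eq_hrec (N : ℕ) (g : List ℤ → ℚ) : ∀ (n r : ℕ) (e : ℕ → ℤ), r + n = N →
    tsumAux (e r) ((List.range' (r + 1) n).map e) (fun v => g ((List.range r).map e ++ v))
      = hrec (fun e => g ((List.range N).map e)) n r e := by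
  intro n
  induction n with
  | zero =>
    intro r e h
    have : r = N := by omega
    subst this
    simp [tsumAux, hrec]
  | succ n ih =>
    intro r e h
    rw [List.range'_succ, List.map_cons, tsumAux_cons, hrec]
    congr 1
    · congr 1
      funext l
      rw [← ih (r + 1) (Function.update e r l) (by omega)]
      rw [Function.update_of_ne (by omega : r + 1 ≠ r), map_range'_update _ _ _ _ (by omega),
        List.range_succ, List.map_append, map_range_update _ _ _ le_rfl]
      simp
    · rw [← ih (r + 1) _ (by omega)]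
      rw [Function.update_self, map_range'_update _ _ _ _ (by omega),
        map_range'_update _ _ _ _ (by omega), map_range_update _ _ _ le_rfl,
        List.range_succ, List.map_append, map_range_update _ _ _ le_rfl]
      simp

theorem PF_alphaN : ∀ n : ℕ, PF (fun e => alphaN ℚ n ((List.range n).map e)) := by
  intro n
  induction n with
  | zero => exact PF.const 1
  | succ n ih =>
    have : ∀ e : ℕ → ℤ, alphaN ℚ (n + 1) ((List.range (n + 1)).map e)
        = hrec (fun e => alphaN ℚ n ((List.range n).map e)) n 0 e := by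
      intro e
      rw [← tsumAux_eq_hrec n (alphaN ℚ n) n 0 e (by omega), List.range_eq_range',
        List.range'_succ, List.map_cons]
      rfl
    simp only [this]
    exact PF.hrec ih n 0

/-- The polynomial. -/
theorem exists_poly (n : ℕ) : ∃ P : MvPolynomial (Fin n) ℚ, ∀ κ : Fin n → ℤ,
    MvPolynomial.eval (fun i => (κ i : ℚ)) P = alphaN ℚ n (List.ofFn κ) := by
  obtain ⟨P, hP⟩ := PF_alphaN n
  refine ⟨MvPolynomial.aeval (fun i : ℕ => if h : i < n then MvPolynomial.X ⟨i, h⟩ else 0) P,
    fun κ => ?_⟩
  set e : ℕ → ℤ := fun i => if h : i < n then κ ⟨i, h⟩ else 0 with he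
  have h1 : List.ofFn κ = (List.range n).map e := by
    refine List.ext_getElem (by simp) fun i h1 h2 => ?_
    have hi : i < n := by simpa using h1
    simp [he, hi]
  have hPe := hP e
  beta_reduce at hPe
  rw [h1, hPe]
  have h2 : ∀ Q : MvPolynomial ℕ ℚ, MvPolynomial.eval (fun i => (κ i : ℚ))
      (MvPolynomial.aeval (fun i : ℕ => if h : i < n then
        (MvPolynomial.X ⟨i, h⟩ : MvPolynomial (Fin n) ℚ) else 0) Q)
      = MvPolynomial.eval (fun i => (e i : ℚ)) Q := by
    intro Q
    induction Q using MvPolynomial.induction_on with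
    | C a => simp
    | add p q hp hq => rw [map_add, map_add, map_add, hp, hq]
    | mul_X p i hp =>
      rw [map_mul, map_mul, map_mul, hp, MvPolynomial.aeval_X, MvPolynomial.eval_X]
      congr 1
      by_cases h : i < n <;> simp [he, h]
  exact h2 P

/-- Change of coefficients. -/
theorem alphaN_map {A B : Type*} [CommRing A] [CommRing B] (f : A →+* B) (n : ℕ) :
    ∀ w : List ℤ, f (alphaN A n w) = alphaN B n w := by
  have haux : ∀ (w : List ℤ) (x : ℤ) (g : List ℤ → A),
      f (tsumAux x w g) = tsumAux x w (fun v => f (g v)) := by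
    intro w
    induction w with
    | nil => intro x g; rfl
    | cons y w ih =>
      intro x g
      rw [tsumAux_cons, tsumAux_cons, map_add, ih]
      congr 1
      unfold LibMT.esum
      rw [map_sub, map_sum, map_sum]
      simp only [ih]
  induction n with
  | zero => intro w; exact map_one f
  | succ n ih =>
    intro w
    cases w with
    | nil => exact map_zero f
    | cons x w =>
      show f (tsumAux x w (alphaN A n)) = tsumAux x w (alphaN B n)
      rw [haux]
      congr 1
      funext v
      exact ih v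

/-- Two polynomials which agree at strictly increasing integer points agree. -/
theorem poly_unique {n : ℕ} {P Q : MvPolynomial (Fin n) ℚ}
    (h : ∀ κ : Fin n → ℤ, StrictMono κ → MvPolynomial.eval (fun i => (κ i : ℚ)) P
      = MvPolynomial.eval (fun i => (κ i : ℚ)) Q) : P = Q := by
  -- first at all integer points
  have h1 : ∀ κ : Fin n → ℤ, MvPolynomial.eval (fun i => (κ i : ℚ)) (P - Q) = 0 := by
    intro κ
    set S : Polynomial ℚ := MvPolynomial.aeval
      (fun i : Fin n => Polynomial.C (κ i : ℚ) + Polynomial.X * Polynomial.C ((i : ℕ) : ℚ)) (P - Q)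
      with hS
    have hSe : ∀ t : ℚ, S.eval t
        = MvPolynomial.eval (fun i : Fin n => (κ i : ℚ) + t * ((i : ℕ) : ℚ)) (P - Q) := by
      intro t
      rw [hS]
      generalize P - Q = T
      induction T using MvPolynomial.induction_on with
      | C a => simp
      | add p q hp hq => rw [map_add, map_add, Polynomial.eval_add, hp, hq]
      | mul_X p i hp =>
        rw [map_mul, map_mul, Polynomial.eval_mul, hp, MvPolynomial.aeval_X, MvPolynomial.eval_X]
        simp
    -- a bound making the tuple strictly increasing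
    obtain ⟨M, hM⟩ : ∃ M : ℤ, ∀ i, |κ i| ≤ M := by
      refine ⟨∑ i, |κ i|, fun i => ?_⟩
      exact Finset.single_le_sum (f := fun i => |κ i|) (fun i _ => abs_nonneg _)
        (Finset.mem_univ i)
    have hS0 : S = 0 := by
      apply Polynomial.eq_zero_of_infinite_isRoot
      refine Set.Infinite.mono (s := (fun t : ℕ => (t : ℚ)) '' {t : ℕ | 2 * M < t}) ?_ ?_
      · rintro _ ⟨t, ht, rfl⟩
        show S.IsRoot (t : ℚ)
        rw [Polynomial.IsRoot.def, hSe]
        have hmono : StrictMono (fun i : Fin n => κ i + (t : ℤ) * ((i : ℕ) : ℤ)) := by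
          intro i j hij
          have hij' : (i : ℕ) + 1 ≤ j := hij
          have hi := abs_le.1 (hM i)
          have hj := abs_le.1 (hM j)
          have ht' : 2 * M < (t : ℤ) := ht
          have h3 : ((i : ℕ) : ℤ) + 1 ≤ ((j : ℕ) : ℤ) := by exact_mod_cast hij'
          have ht0 : (0 : ℤ) ≤ t := by positivity
          have h4 : (t : ℤ) * (((i : ℕ) : ℤ) + 1) ≤ (t : ℤ) * ((j : ℕ) : ℤ) :=
            mul_le_mul_of_nonneg_left h3 ht0
          show κ i + (t : ℤ) * ((i : ℕ) : ℤ) < κ j + (t : ℤ) * ((j : ℕ) : ℤ)
          linarith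
        have := h _ hmono
        rw [map_sub, sub_eq_zero]
        push_cast at this
        exact this
      · refine Set.Infinite.image (fun a _ b _ hab => by exact_mod_cast hab) ?_
        have : {t : ℕ | 2 * M < t} = (fun t : ℕ => t) ⁻¹' {t : ℕ | 2 * M < t} := rfl
        refine Set.infinite_of_not_bddAbove ?_
        rintro ⟨b, hb⟩
        have h5 : (b + 1 + (2 * M).toNat) ∈ {t : ℕ | 2 * M < t} := by
          show 2 * M < ((b + 1 + (2 * M).toNat : ℕ) : ℤ)
          have := Int.self_le_toNat (2 * M)
          push_cast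
          linarith [Int.natCast_nonneg b]
        have h6 := hb h5
        omega
    have h7 := hSe 0
    rw [hS0, Polynomial.eval_zero] at h7
    rw [h7]
    congr 2
    funext i
    simp
  have h2 : P - Q = 0 := by
    refine MvPolynomial.funext_set (fun _ : Fin n => Set.range (fun m : ℤ => (m : ℚ))) ?_ ?_
    · intro i
      exact Set.infinite_range_of_injective Int.cast_injective
    · intro x hx
      have : ∀ i, ∃ m : ℤ, (m : ℚ) = x i := fun i => hx i (Set.mem_univ i)
      choose κ hκ using this
      have hx' : x = fun i => (κ i : ℚ) := funext fun i => (hκ i).symm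
      rw [hx', h1 κ, map_zero]
  exact sub_eq_zero.1 h2

end LibMT
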