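import Pool.Agent.LibMT.Identity
import Pool.Agent.LibMT.Poly
import Pool.Agent.LibMT.Count

/-!
The reverse-and-duplicate identity over the rational numbers.
-/

namespace LibMT

open Finset

/-- The complex numbers contain a primitive third root of unity. -/
noncomputable instance : HasOmega ℂ where
  om := (-1 + (Real.sqrt 3 : ℂ) * Complex.I) / 2
  om_eq := by
    have h : ((Real.sqrt 3 : ℝ) : ℂ) ^ 2 = 3 := by
      rw [← Complex.ofReal_pow, Real.sq_sqrt (by norm_num)]
      norm_num
    have hI : Complex.I ^ 2 = -1 := Complex.I_sq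
    linear_combination (1 / 4 * Complex.I ^ 2) * h + (3 / 4) * hI

theorem alphaN_identity_int (k i j : ℕ) :
    alphaN ℤ (2 * k + (i + j)) (R 1 i ++ B k ((i : ℤ) + 1) ++ R ((i : ℤ) + 1 + k) j)
      = alphaN ℤ (k + (i + j)) (R 1 (k + (i + j))) := by
  have h := alphaN_identity (K := ℂ) k i j
  rw [← alphaN_map (Int.castRingHom ℂ), ← alphaN_map (Int.castRingHom ℂ)] at h
  exact (Int.castRingHom ℂ).injective_int h

theorem R_eq_map (a : ℕ) (j : ℕ) : R (a : ℤ) j = (List.range' a j).map (fun x : ℕ => (x : ℤ)) := by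
  induction j with
  | zero => rfl
  | succ j ih =>
    rw [R, ih, List.range'_concat, List.map_append]
    simp

theorem B_eq_map (k : ℕ) (a : ℕ) : B k (a : ℤ)
    = ((List.range' a k).reverse.flatMap fun x => [x, x]).map (fun x : ℕ => (x : ℤ)) := by
  induction k with
  | zero => rfl
  | succ k ih =>
    rw [B, ih, List.range'_concat]
    simp

theorem SI_ofFn {n : ℕ} {κ : Fin n → ℤ} (h : StrictMono κ) : SI (List.ofFn κ) := by
  intro i hi
  rw [List.length_ofFn] at hi
  rw [List.getD_eq_getElem _ _ (by simp; omega), List.getD_eq_getElem _ _ (by simp; omega)]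
  simp only [List.getElem_ofFn]
  exact h (by simp [Fin.lt_def])

end LibMT
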