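import Pool.Agent.LibMT.Core

/-!
The word functional `X` and its first-letter and last-letter expansions.
-/

namespace LibMT

open Finset HasOmega

variable {K : Type*} [Field K] [DecidableEq K] [HasOmega K]

/-- The word functional: the coefficientwise `symmetrizer` attached to a word of functions. -/
def X : List (K → K) → Finset K → K
  | [], Z => if Z = ∅ then 1 else 0
  | p :: l, Z => ∑ c ∈ Z, p c * (∏ j ∈ Z.erase c, kp c j) * X l (Z.erase c)

theorem X_nil (Z : Finset K) : X [] Z = if Z = ∅ then 1 else 0 := rfl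

theorem X_cons (p : K → K) (l : List (K → K)) (Z : Finset K) :
    X (p :: l) Z = ∑ c ∈ Z, p c * (∏ j ∈ Z.erase c, kp c j) * X l (Z.erase c) := rfl

omit [Field K] [HasOmega K] in
theorem sum_erase_comm {A : Type*} [AddCommMonoid A] (Z : Finset K) (F : K → K → A) :
    ∑ d ∈ Z, ∑ c ∈ Z.erase d, F d c = ∑ c ∈ Z, ∑ d ∈ Z.erase c, F d c := by
  apply Finset.sum_comm'
  intro x y
  simp only [Finset.mem_erase]
  constructor
  · rintro ⟨h1, h2, h3⟩; exact ⟨⟨Ne.symm h2, h1⟩, h3⟩
  · rintro ⟨⟨h1, h2⟩, h3⟩; exact ⟨h2, Ne.symm h1, h3⟩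

theorem X_append_singleton (l : List (K → K)) (p : K → K) : ∀ Z : Finset K,
    X (l ++ [p]) Z = ∑ c ∈ Z, p c * (∏ j ∈ Z.erase c, kp j c) * X l (Z.erase c) := by
  induction l with
  | nil =>
    intro Z
    rw [List.nil_append, X_cons]
    refine Finset.sum_congr rfl fun c _ => ?_
    rw [X_nil]
    split_ifs with h
    · rw [h]; simp
    · simp
  | cons q l ih =>
    intro Z
    rw [List.cons_append, X_cons]
    simp_rw [ih, X_cons, Finset.mul_sum]
    rw [sum_erase_comm]
    refine Finset.sum_congr rfl fun c hc => Finset.sum_congr rfl fun d hd => ?_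
    have hdZ : d ∈ Z := (Finset.mem_erase.1 hd).2
    have hdc : d ≠ c := (Finset.mem_erase.1 hd).1
    have hcd : c ∈ Z.erase d := Finset.mem_erase.2 ⟨Ne.symm hdc, hc⟩
    rw [← Finset.mul_prod_erase (Z.erase d) (fun j => kp d j) hcd,
      ← Finset.mul_prod_erase (Z.erase c) (fun j => kp j c) hd,
      Finset.erase_right_comm]
    ring

theorem X_eq_zero_of_card (l : List (K → K)) : ∀ Z : Finset K, Z.card ≠ l.length → X l Z = 0 := by
  induction l with
  | nil =>
    intro Z h
    rw [X_nil, if_neg]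
    rintro rfl
    simp at h
  | cons q l ih =>
    intro Z h
    rw [X_cons]
    refine Finset.sum_eq_zero fun c hc => ?_
    rw [ih, mul_zero]
    rw [Finset.card_erase_of_mem hc]
    rw [List.length_cons] at h
    have := Finset.card_pos.2 ⟨c, hc⟩
    omega

theorem X_twist (a : K → K) (l : List (K → K)) : ∀ Z : Finset K,
    X (l.map (fun p u => a u * p u)) Z = (∏ u ∈ Z, a u) * X l Z := by
  induction l with
  | nil =>
    intro Z
    rw [List.map_nil, X_nil]
    split_ifs with h
    · rw [h]; simp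
    · simp
  | cons q l ih =>
    intro Z
    rw [List.map_cons, X_cons, X_cons, Finset.mul_sum]
    refine Finset.sum_congr rfl fun c hc => ?_
    rw [ih, ← Finset.mul_prod_erase Z a hc]
    ring

/-- Equality of `X` on all sets satisfying a hereditary predicate is preserved by common
prefixes. -/
theorem X_congr_prefix {P : Finset K → Prop} (hP : ∀ Z c, P Z → P (Z.erase c))
    {v w : List (K → K)} (h : ∀ Z, P Z → X v Z = X w Z) (a : List (K → K)) :
    ∀ Z, P Z → X (a ++ v) Z = X (a ++ w) Z := by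
  induction a with
  | nil => simpa using h
  | cons p a ih =>
    intro Z hZ
    rw [List.cons_append, List.cons_append, X_cons, X_cons]
    refine Finset.sum_congr rfl fun c hc => ?_
    rw [ih _ (hP Z c hZ)]

theorem X_congr_suffix {P : Finset K → Prop} (hP : ∀ Z c, P Z → P (Z.erase c))
    {v w : List (K → K)} (h : ∀ Z, P Z → X v Z = X w Z) (a : List (K → K)) :
    ∀ Z, P Z → X (v ++ a) Z = X (w ++ a) Z := by
  induction a using List.reverseRecOn with
  | nil => simpa using h
  | append_singleton a p ih =>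
    intro Z hZ
    rw [← List.append_assoc, ← List.append_assoc, X_append_singleton, X_append_singleton]
    refine Finset.sum_congr rfl fun c hc => ?_
    rw [ih _ (hP Z c hZ)]

/-- Admissible point sets: distinct nonzero cubes, different from `1`. -/
def Good (Z : Finset K) : Prop :=
  (∀ a ∈ Z, ∀ b ∈ Z, a ^ 3 = b ^ 3 → a = b) ∧ ∀ a ∈ Z, a ≠ 0 ∧ a ^ 3 ≠ 1

/-- Weakly admissible point sets: distinct nonzero cubes. -/
def WGood (Z : Finset K) : Prop :=
  (∀ a ∈ Z, ∀ b ∈ Z, a ^ 3 = b ^ 3 → a = b) ∧ ∀ a ∈ Z, a ≠ 0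

omit [DecidableEq K] [HasOmega K] in
theorem Good.wgood {Z : Finset K} (h : Good Z) : WGood Z := ⟨h.1, fun a ha => (h.2 a ha).1⟩

omit [HasOmega K] in
theorem Good.erase {Z : Finset K} (h : Good Z) (c : K) : Good (Z.erase c) :=
  ⟨fun a ha b hb => h.1 a (Finset.mem_of_mem_erase ha) b (Finset.mem_of_mem_erase hb),
    fun a ha => h.2 a (Finset.mem_of_mem_erase ha)⟩

omit [HasOmega K] in
theorem WGood.erase {Z : Finset K} (h : WGood Z) (c : K) : WGood (Z.erase c) :=
  ⟨fun a ha b hb => h.1 a (Finset.mem_of_mem_erase ha) b (Finset.mem_of_mem_erase hb),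
    fun a ha => h.2 a (Finset.mem_of_mem_erase ha)⟩

omit [DecidableEq K] [HasOmega K] in
theorem Good.ne_one {Z : Finset K} (h : Good Z) {a : K} (ha : a ∈ Z) : a ≠ 1 := by
  rintro rfl
  exact (h.2 1 ha).2 (by ring)

omit [DecidableEq K] in
theorem Good.ne_om {Z : Finset K} (h : Good Z) {a : K} (ha : a ∈ Z) : a ≠ om := by
  rintro rfl
  exact (h.2 _ ha).2 om_cube

omit [DecidableEq K] in
theorem Good.ne_om_sq {Z : Finset K} (h : Good Z) {a : K} (ha : a ∈ Z) : a ≠ om ^ 2 := by
  rintro rfl
  refine (h.2 _ ha).2 ?_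
  rw [← pow_mul, mul_comm, pow_mul, om_cube, one_pow]

omit [DecidableEq K] in
theorem Good.one_notMem {Z : Finset K} (h : Good Z) : (1 : K) ∉ Z :=
  fun ha => h.ne_one ha rfl

/-- A word of integers as a word of functions. -/
def wd (w : List ℤ) : List (K → K) := w.map fun x u => zf u ^ x

/-- The functional on words of integers. -/
def XZ (w : List ℤ) (Z : Finset K) : K := X (wd w) Z

theorem XZ_nil (Z : Finset K) : XZ [] Z = if Z = ∅ then 1 else 0 := rfl

theorem XZ_cons (x : ℤ) (w : List ℤ) (Z : Finset K) :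
    XZ (x :: w) Z = ∑ c ∈ Z, zf c ^ x * (∏ j ∈ Z.erase c, kp c j) * XZ w (Z.erase c) := rfl

omit [DecidableEq K] in
theorem wd_append (v w : List ℤ) : wd (K := K) (v ++ w) = wd v ++ wd w := by
  simp [wd]

theorem XZ_append_singleton (w : List ℤ) (x : ℤ) (Z : Finset K) :
    XZ (w ++ [x]) Z = ∑ c ∈ Z, zf c ^ x * (∏ j ∈ Z.erase c, kp j c) * XZ w (Z.erase c) := by
  unfold XZ
  rw [wd_append]
  exact X_append_singleton _ _ _

end LibMT
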