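import Pool.Agent.LibMT.Words

/-!
The relations between words, and the reverse-and-duplicate identity for iterated row sums.
-/

namespace LibMT

open Finset HasOmega
open scoped Polynomial

variable {K : Type*} [Field K] [DecidableEq K] [HasOmega K]

/-- The product formula for the doubled decreasing word, at point sets containing `1`. -/
theorem HH_one [CharZero K] (k : ℕ) {V : Finset K} (hV : Good V) (hc : V.card = 2 * k + 1) :
    XZ (B (k + 1) 1) (insert 1 V)
      = Cc K (k + 1) * (((1 - om) * PA V) / ((1 - om ^ 2) * PD V) ^ (k + 1)) * sF (insert 1 V) := by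
  obtain ⟨Q, _, hQe⟩ := sF_degree hc
  rw [hQe 1 hV.one_notMem]
  have hp : ∀ c, c ∉ poles V → (c - om ^ 2) * PD V ≠ 0 := by
    intro c hc
    rw [mem_poles] at hc
    exact mul_ne_zero (sub_ne_zero.2 fun h => hc (Or.inr (Or.inl h))) (PD_ne_zero hV)
  refine Reg.eq_one (F := fun c => XZ (B (k + 1) 1) (insert c V))
    (G := fun c => Cc K (k + 1) * (((c - om) * PA V) / ((c - om ^ 2) * PD V) ^ (k + 1))
      * Q.eval c) hV (reg_XZ _ V) ?_ ?_
  · refine ((Reg.const _ _).mul ?_).mul (Reg.poly _ Q)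
    refine Reg.div ?_ (Reg.pow ?_ _) fun c hc => pow_ne_zero _ (hp c hc)
    · refine Reg.mul ?_ (Reg.const _ _)
      exact (Reg.poly _ (Polynomial.X - Polynomial.C om)).congr fun c _ => by simp
    · refine Reg.mul ?_ (Reg.const _ _)
      exact (Reg.poly _ (Polynomial.X - Polynomial.C (om ^ 2))).congr fun c _ => by simp
  · intro c hcV hg
    show XZ (B (k + 1) 1) (insert c V) = _
    rw [HH_all (k + 1) _ hg (by rw [Finset.card_insert_of_notMem hcV, hc]; ring), PA_insert hcV,
      PD_insert hcV, hQe c hcV]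

/-- The relation `I`. -/
theorem rel_I [CharZero K] (k : ℕ) {V : Finset K} (hV : Good V) (hc : V.card = 2 * k + 1) :
    XZ (B (k + 1) 1) (insert 1 V) = XZ (B k 1 ++ [(k : ℤ) + 1]) V := by
  rw [HH_one k hV hc, XZ_B_append k hV hc, Cc, mul_pow]
  have h1 := PA_ne_zero hV
  have h2 := PD_ne_zero hV
  have h3 : (1 - om ^ 2 : K) ≠ 0 := sub_ne_zero.2 om_sq_ne_one.symm
  have h4 : (om : K) * (1 - om) = - om ^ 2 * (1 - om ^ 2) := by
    have h5 : (om : K) ^ 2 + om + 1 = 0 := om_eq
    linear_combination (- om ^ 2 + om) * h5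
  have h6 : Cc K k * (om * (om - om ^ 2) ^ k * (1 - om ^ 2) ^ k) *
      ((1 - om) * PA V / ((1 - om ^ 2) ^ (k + 1) * PD V ^ (k + 1)))
      = Cc K k * (om - om ^ 2) ^ k * ((om * (1 - om)) / (1 - om ^ 2)) * (PA V / PD V ^ (k + 1)) := by
    rw [pow_succ (1 - om ^ 2 : K)]
    field_simp
  rw [h6, h4]
  have h7 : (- om ^ 2 * (1 - om ^ 2) : K) / (1 - om ^ 2) = - om ^ 2 := by
    field_simp
  rw [h7]
  ring

/-- The relation `Z`. -/
theorem rel_Z [CharZero K] (k : ℕ) {V : Finset K} (hV : Good V)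
    (hc : V.card = 2 * (k + 1) + 1) : XZ (B (k + 1) 1 ++ [(k : ℤ) + 1]) V = 0 := by
  rw [append_of_HH (HH_all (k + 1)) _ hV hc]
  have hst := star' (ζ := (om : K)) om_eq om_ne_one hV.1 (fun a ha => (hV.2 a ha).1) hc
    (r := Polynomial.X * (Polynomial.X - Polynomial.C om) ^ k)
    (by
      refine Polynomial.natDegree_mul_le.trans ?_
      have h1 : ((Polynomial.X - Polynomial.C (om : K)) ^ k).natDegree ≤ k :=
        (Polynomial.natDegree_pow_le).trans (by rw [Polynomial.natDegree_X_sub_C, mul_one])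
      have h2 : (Polynomial.X : K[X]).natDegree ≤ 1 := Polynomial.natDegree_X_le
      omega)
    (t := 0) (fun h => (hV.2 0 h).1 rfl) (by rw [mul_zero]; exact fun h => (hV.2 0 h).1 rfl)
  simp only [mul_zero, sub_zero, Polynomial.eval_mul, Polynomial.eval_X, zero_mul,
    zero_div] at hst
  have e : ∑ v ∈ V, zf v ^ ((k : ℤ) + 1) * ((v - om ^ 2) ^ (k + 1) / (v - om)) * sF (V.erase v)
        * ∏ j ∈ V.erase v, (j - om ^ 2 * v) / (j - v)
      = (- om ^ 2) ^ (k + 1) * ∑ v ∈ V, v * Polynomial.eval v ((Polynomial.X - Polynomial.C om) ^ k) / v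
        * sF (V.erase v) * ∏ j ∈ V.erase v, (j - om ^ 2 * v) / (j - v) := by
    rw [Finset.mul_sum]
    refine Finset.sum_congr rfl fun v hv => ?_
    have h0 : v ≠ 0 := (hV.2 v hv).1
    have h1 : v - om ≠ 0 := sub_ne_zero.2 (hV.ne_om hv)
    have h2 : v - om ^ 2 ≠ 0 := sub_ne_zero.2 (hV.ne_om_sq hv)
    have h3 : zf v ^ ((k : ℤ) + 1) * ((v - om ^ 2) ^ (k + 1) / (v - om))
        = (- om ^ 2) ^ (k + 1) * (v - om) ^ k := by
      have : zf v ^ ((k : ℤ) + 1) = zf v ^ (k + 1) := by
        rw [← zpow_natCast]; push_cast; rfl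
      rw [this, zf, div_pow, mul_pow, pow_succ (v - om) k]
      field_simp
    rw [h3]
    simp only [Polynomial.eval_pow, Polynomial.eval_sub, Polynomial.eval_X, Polynomial.eval_C]
    field_simp
  rw [e, hst]
  ring

/-- The relation `Z` at point sets containing `1`. -/
theorem rel_Z_one [CharZero K] (k : ℕ) {U : Finset K} (hU : Good U)
    (hc : U.card = 2 * (k + 1)) : XZ (B (k + 1) 1 ++ [(k : ℤ) + 1]) (insert 1 U) = 0 := by
  refine Reg.eq_zero_one (F := fun c => XZ (B (k + 1) 1 ++ [(k : ℤ) + 1]) (insert c U)) hU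
    (reg_XZ _ U) fun c hcU hg => ?_
  exact rel_Z k hg (by rw [Finset.card_insert_of_notMem hcU, hc])

/-- The relation `L`. -/
theorem rel_L [CharZero K] (k : ℕ) (i : ℕ) : ∀ {V : Finset K}, Good V →
    XZ (B k ((i : ℤ) + 1) ++ [(i : ℤ) + 1 + k]) V
      = XZ (((i : ℤ) + 1) :: B k ((i : ℤ) + 1 + 1)) V := by
  induction i with
  | zero =>
    intro V hV
    by_cases hc : V.card = 2 * k + 1
    · have h1 := XZ_B_append k hV hc
      have h2 := XZ_B_prepend k hV hc
      have e1 : B k (((0 : ℕ) : ℤ) + 1) ++ [((0 : ℕ) : ℤ) + 1 + k] = B k 1 ++ [(k : ℤ) + 1] := by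
        norm_num [add_comm]
      have e2 : (((0 : ℕ) : ℤ) + 1) :: B k (((0 : ℕ) : ℤ) + 1 + 1) = 1 :: B k 2 := by
        norm_num
      rw [e1, e2, h1, h2]
    · unfold XZ
      rw [X_eq_zero_of_card, X_eq_zero_of_card]
      · simp only [wd, List.length_map, List.length_cons, B_length]; omega
      · simp only [wd, List.length_map, List.length_append, List.length_cons, List.length_nil,
          B_length]; omega
  | succ i ih =>
    intro V hV
    have e1 : B k (((i + 1 : ℕ) : ℤ) + 1) ++ [((i + 1 : ℕ) : ℤ) + 1 + k]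
        = (B k ((i : ℤ) + 1) ++ [(i : ℤ) + 1 + k]).map (· + 1) := by
      push_cast
      rw [B_shift k ((i : ℤ) + 1), List.map_append]
      simp only [List.map_cons, List.map_nil]
      congr 2
      ring
    have e2 : (((i + 1 : ℕ) : ℤ) + 1) :: B k (((i + 1 : ℕ) : ℤ) + 1 + 1)
        = (((i : ℤ) + 1) :: B k ((i : ℤ) + 1 + 1)).map (· + 1) := by
      push_cast
      rw [B_shift k ((i : ℤ) + 1 + 1)]
      simp
    rw [e1, e2, XZ_shift _ V hV, XZ_shift _ V hV, ih hV]

theorem R_succ (a : ℤ) (j : ℕ) : R a (j + 1) = R a j ++ [a + j] := rfl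

/-- The letter `z ^ m / (1 - z)`. -/
def q (m : ℤ) : K → K := fun u => zf u ^ m / (1 - zf u)

/-- Expansion by the last letter at point sets containing `1`. -/
theorem XZ_append_one [CharZero K] (w : List ℤ) (x : ℤ) {Z : Finset K} (hZ : Good Z) :
    XZ (w ++ [x]) (insert 1 Z) = (∏ u ∈ Z, (1 / (1 - zf u))) * XZ w Z
      - ∑ c ∈ Z, zf c ^ (x + 1) / (1 - zf c) * (∏ j ∈ Z.erase c, kp j c)
          * XZ w (insert 1 (Z.erase c)) := by
  rw [XZ_append_singleton, Finset.sum_insert hZ.one_notMem, Finset.erase_insert hZ.one_notMem,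
    zf_one, one_zpow, one_mul, sub_eq_add_neg, ← Finset.sum_neg_distrib]
  congr 1
  · congr 1
    exact Finset.prod_congr rfl fun j hj => kp_one_right (hZ.ne_om_sq hj) (hZ.ne_one hj)
  · refine Finset.sum_congr rfl fun c hc => ?_
    have hc1 : (1 : K) ≠ c := (hZ.ne_one hc).symm
    rw [Finset.erase_insert_of_ne hc1, Finset.prod_insert
      (fun h => hZ.one_notMem (Finset.mem_of_mem_erase h)),
      kp_one_left (hZ.ne_om_sq hc) (hZ.ne_one hc),
      zpow_add_one₀ (zf_ne_zero (hZ.ne_om_sq hc) (hZ.ne_om hc))]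
    ring

/-- The two-letter identity. -/
theorem two_letter [CharZero K] (v : List (K → K)) (m : ℤ) {U : Finset K} (hU : Good U) :
    X (v ++ [fun u => zf u ^ m] ++ [q (m + 1)]) U = X (v ++ [q m] ++ [q m]) U := by
  have key : X (v ++ [fun u => zf u ^ m] ++ [q (m + 1)]) U - X (v ++ [q m] ++ [q m]) U
      = ∑ c ∈ U, ∑ d ∈ U.erase c, (q (m + 1) c * zf d ^ m - q m c * q m d) * kp d c
          * ((∏ j ∈ (U.erase c).erase d, kp j c) * (∏ j ∈ (U.erase c).erase d, kp j d)
            * X v ((U.erase c).erase d)) := by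
    rw [X_append_singleton, X_append_singleton, ← Finset.sum_sub_distrib]
    refine Finset.sum_congr rfl fun c hc => ?_
    rw [X_append_singleton, X_append_singleton, Finset.mul_sum, Finset.mul_sum,
      ← Finset.sum_sub_distrib]
    refine Finset.sum_congr rfl fun d hd => ?_
    rw [← Finset.mul_prod_erase (U.erase c) (fun j => kp j c) hd]
    ring
  set S := ∑ c ∈ U, ∑ d ∈ U.erase c, (q (m + 1) c * zf d ^ m - q m c * q m d) * kp d c
          * ((∏ j ∈ (U.erase c).erase d, kp j c) * (∏ j ∈ (U.erase c).erase d, kp j d)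
            * X v ((U.erase c).erase d)) with hS
  have hsw : S = ∑ c ∈ U, ∑ d ∈ U.erase c, (q (m + 1) d * zf c ^ m - q m d * q m c) * kp c d
          * ((∏ j ∈ (U.erase d).erase c, kp j d) * (∏ j ∈ (U.erase d).erase c, kp j c)
            * X v ((U.erase d).erase c)) := by
    rw [hS, sum_erase_comm]
  have h2S : S + S = 0 := by
    nth_rewrite 2 [hsw]
    rw [hS, ← Finset.sum_add_distrib]
    refine Finset.sum_eq_zero fun c hc => ?_
    rw [← Finset.sum_add_distrib]
    refine Finset.sum_eq_zero fun d hd => ?_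
    have hdZ := Finset.mem_of_mem_erase hd
    have hdc : d ≠ c := (Finset.mem_erase.1 hd).1
    rw [Finset.erase_right_comm (a := d) (b := c)]
    have h1 := one_sub_zf_ne (hU.ne_om_sq hc) (hU.ne_one hc)
    have h2 := one_sub_zf_ne (hU.ne_om_sq hdZ) (hU.ne_one hdZ)
    have h3 := kp_add hdc
    have h4 := kp_antisymm (hU.ne_om_sq hc) (hU.ne_om_sq hdZ) (Ne.symm hdc)
    have h5 : (q (m + 1) c * zf d ^ m - q m c * q m d) * kp d c
        + (q (m + 1) d * zf c ^ m - q m d * q m c) * kp c d = 0 := by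
      unfold q
      rw [zpow_add_one₀ (zf_ne_zero (hU.ne_om_sq hc) (hU.ne_om hc)),
        zpow_add_one₀ (zf_ne_zero (hU.ne_om_sq hdZ) (hU.ne_om hdZ))]
      have h6 : (zf c ^ m * zf c / (1 - zf c) * zf d ^ m -
          zf c ^ m / (1 - zf c) * (zf d ^ m / (1 - zf d))) * kp d c +
          (zf d ^ m * zf d / (1 - zf d) * zf c ^ m -
          zf d ^ m / (1 - zf d) * (zf c ^ m / (1 - zf c))) * kp c d
          = zf c ^ m * zf d ^ m / ((1 - zf c) * (1 - zf d)) *
            ((zf c * (1 - zf d) - 1) * kp d c + (zf d * (1 - zf c) - 1) * kp c d) := by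
        field_simp
      rw [h6]
      have h7 : (zf c * (1 - zf d) - 1) * kp d c + (zf d * (1 - zf c) - 1) * kp c d
        = - (kp c d * (1 - zf d + zf d * zf c) + kp d c * (1 - zf c + zf c * zf d)) := by
        ring
      rw [h7, h4]
      ring
    linear_combination ((∏ j ∈ (U.erase c).erase d, kp j c) * (∏ j ∈ (U.erase c).erase d, kp j d)
            * X v ((U.erase c).erase d)) * h5
  have h2 : (2 : K) ≠ 0 := two_ne_zero
  have h3 : S = 0 := by
    have : (2 : K) * S = 0 := by rw [two_mul]; exact h2S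
    exact (mul_eq_zero.1 this).resolve_left h2
  rw [h3] at key
  exact sub_eq_zero.1 key

omit [DecidableEq K] in
theorem wd_singleton (x : ℤ) : wd (K := K) [x] = [fun u => zf u ^ x] := rfl

/-- The club relation. -/
theorem rel_club [CharZero K] (k : ℕ) (j : ℕ) : ∀ {U : Finset K}, Good U →
    U.card = 2 * k + 2 + j →
    X (wd (B k 1 ++ R ((k : ℤ) + 1) (j + 1)) ++ [q ((k : ℤ) + 2 + j)]) U
      = (∏ u ∈ U, (1 / (1 - zf u))) * XZ (B (k + 1) 1 ++ R ((k : ℤ) + 2) j) U := by
  induction j with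
  | zero =>
    intro U hU hc
    have hZ1 := rel_Z_one k hU (by rw [hc]; ring)
    rw [XZ_append_one _ _ hU] at hZ1
    have e1 : R ((k : ℤ) + 1) (0 + 1) = [(k : ℤ) + 1] := by simp [R]
    have e2 : R ((k : ℤ) + 2) 0 = [] := rfl
    rw [e1, e2, List.append_nil, X_append_singleton]
    rw [sub_eq_zero] at hZ1
    rw [hZ1]
    refine Finset.sum_congr rfl fun c hc' => ?_
    have hce : (U.erase c).card = 2 * k + 1 := by rw [Finset.card_erase_of_mem hc', hc]; rfl
    rw [rel_I k (hU.erase c) hce]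
    have e3 : (k : ℤ) + 1 + 1 = (k : ℤ) + 2 + ((0 : ℕ) : ℤ) := by push_cast; ring
    rw [e3]
    rfl
  | succ j ih =>
    intro U hU hc
    have e1 : wd (K := K) (B k 1 ++ R ((k : ℤ) + 1) (j + 1 + 1))
        = wd (B k 1 ++ R ((k : ℤ) + 1) (j + 1)) ++ [fun u => zf u ^ ((k : ℤ) + 2 + j)] := by
      rw [R, ← List.append_assoc, wd_append _ [_], wd_singleton]
      congr 3
      funext u
      congr 1
      push_cast
      ring
    have e2 : ((k : ℤ) + 2 + ((j + 1 : ℕ) : ℤ)) = ((k : ℤ) + 2 + j) + 1 := by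
      push_cast; ring
    rw [e1, e2, two_letter _ _ hU, X_append_singleton, R_succ ((k : ℤ) + 2) j,
      ← List.append_assoc, XZ_append_singleton, Finset.mul_sum]
    refine Finset.sum_congr rfl fun c hc' => ?_
    have hce : (U.erase c).card = 2 * k + 2 + j := by
      rw [Finset.card_erase_of_mem hc', hc]; rfl
    rw [ih (hU.erase c) hce, ← Finset.mul_prod_erase U (fun u => 1 / (1 - zf u)) hc']
    unfold q
    ring

/-- The double star relation. -/
theorem rel_main [CharZero K] (k : ℕ) (j : ℕ) : ∀ {Z : Finset K}, Good Z →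
    Z.card = 2 * k + 1 + j →
    XZ (B (k + 1) 1 ++ R ((k : ℤ) + 2) j) (insert 1 Z)
      = XZ (B k 1 ++ R ((k : ℤ) + 1) (j + 1)) Z := by
  induction j with
  | zero =>
    intro Z hZ hc
    have e1 : R ((k : ℤ) + 1) (0 + 1) = [(k : ℤ) + 1] := by simp [R]
    have e2 : R ((k : ℤ) + 2) 0 = [] := rfl
    rw [e1, e2, List.append_nil]
    exact rel_I k hZ hc
  | succ j ih =>
    intro Z hZ hc
    have hc2 : Z.card = 2 * k + 2 + j := by rw [hc]; ring
    have e3 : R ((k : ℤ) + 1) (j + 1 + 1) = R ((k : ℤ) + 1) (j + 1) ++ [(k : ℤ) + 2 + j] := by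
      rw [R]
      congr 2
      push_cast
      ring
    rw [R_succ ((k : ℤ) + 2) j, ← List.append_assoc, XZ_append_one _ _ hZ,
      ← rel_club k j hZ hc2, e3,
      ← List.append_assoc, XZ_append_singleton, X_append_singleton, ← Finset.sum_sub_distrib]
    refine Finset.sum_congr rfl fun c hc' => ?_
    have hce : (Z.erase c).card = 2 * k + 1 + j := by
      rw [Finset.card_erase_of_mem hc', hc2]
      omega
    rw [ih (hZ.erase c) hce]
    have h1 := one_sub_zf_ne (hZ.ne_om_sq hc') (hZ.ne_one hc')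
    have h2 := zf_ne_zero (hZ.ne_om_sq hc') (hZ.ne_om hc')
    rw [zpow_add_one₀ h2]
    unfold q
    show _ - _ = _
    have h3 : X (wd (B k 1 ++ R ((k : ℤ) + 1) (j + 1))) (Z.erase c)
      = XZ (B k 1 ++ R ((k : ℤ) + 1) (j + 1)) (Z.erase c) := rfl
    rw [h3]
    field_simp

/-- The iterated row sums of the words with the block at the left end. -/
theorem alphaN_block_succ [CharZero K] (k j : ℕ) :
    alphaN K (2 * (k + 1) + j) (B (k + 1) 1 ++ R ((k : ℤ) + 2) j)
      = alphaN K (2 * k + (j + 1)) (B k 1 ++ R ((k : ℤ) + 1) (j + 1)) := by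
  have e : 2 * (k + 1) + j = (2 * k + (j + 1)) + 1 := by ring
  rw [e]
  refine alphaN_succ_congr ?_ ?_ fun Z hZ hc => rel_main k j hZ (by rw [hc]; ring)
  · simp only [List.length_append, B_length, R_length]; omega
  · simp only [List.length_append, B_length, R_length]

theorem alphaN_block [CharZero K] (k : ℕ) : ∀ j : ℕ,
    alphaN K (2 * k + j) (B k 1 ++ R ((k : ℤ) + 1) j) = alphaN K (k + j) (R 1 (k + j)) := by
  induction k with
  | zero =>
    intro j
    simp only [mul_zero, zero_add, B, List.nil_append]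
    norm_num
  | succ k ih =>
    intro j
    have e : (((k + 1 : ℕ) : ℤ) + 1) = (k : ℤ) + 2 := by push_cast; ring
    rw [e, alphaN_block_succ, ih (j + 1)]
    have e2 : k + (j + 1) = k + 1 + j := by ring
    rw [e2]

/-- Moving the block to the right does not change `X`. -/
theorem XZ_move [CharZero K] (k : ℕ) (i : ℕ) : ∀ (j : ℕ) {Z : Finset K}, Good Z →
    XZ (R 1 i ++ B k ((i : ℤ) + 1) ++ R ((i : ℤ) + 1 + k) j) Z
      = XZ (B k 1 ++ R ((k : ℤ) + 1) (i + j)) Z := by
  induction i with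
  | zero =>
    intro j Z _
    simp only [R, List.nil_append, Nat.cast_zero, zero_add]
    rw [add_comm (1 : ℤ)]
  | succ i ih =>
    intro j Z hZ
    have h1 := ih (j + 1) hZ
    have e0 : i + (j + 1) = i + 1 + j := by ring
    rw [e0] at h1
    rw [← h1, R_succ' ((i : ℤ) + 1 + k) j, R]
    have e1 : R 1 i ++ [1 + (i : ℤ)] ++ B k (((i + 1 : ℕ) : ℤ) + 1)
          ++ R (((i + 1 : ℕ) : ℤ) + 1 + k) j
        = R 1 i ++ ((((i : ℤ) + 1) :: B k ((i : ℤ) + 1 + 1)) ++ R ((i : ℤ) + 1 + k + 1) j) := by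
      have : R (((i + 1 : ℕ) : ℤ) + 1 + k) j = R ((i : ℤ) + 1 + k + 1) j := by
        congr 1; push_cast; ring
      rw [this]
      simp [add_comm (1 : ℤ)]
    have e2 : R 1 i ++ B k ((i : ℤ) + 1) ++ ((i : ℤ) + 1 + k) :: R ((i : ℤ) + 1 + k + 1) j
        = R 1 i ++ ((B k ((i : ℤ) + 1) ++ [(i : ℤ) + 1 + k]) ++ R ((i : ℤ) + 1 + k + 1) j) := by
      simp
    rw [e1, e2]
    unfold XZ
    rw [wd_append (R 1 i), wd_append (R 1 i), wd_append _ (R ((i : ℤ) + 1 + k + 1) j),
      wd_append _ (R ((i : ℤ) + 1 + k + 1) j)]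
    refine X_congr_prefix (P := Good) (fun Z c h => h.erase c) ?_ _ Z hZ
    refine X_congr_suffix (P := Good) (fun Z c h => h.erase c) ?_ _
    intro Z hZ
    exact (rel_L k i hZ).symm

/-- The reverse-and-duplicate identity for iterated row sums. -/
theorem alphaN_identity [CharZero K] (k i j : ℕ) :
    alphaN K (2 * k + (i + j)) (R 1 i ++ B k ((i : ℤ) + 1) ++ R ((i : ℤ) + 1 + k) j)
      = alphaN K (k + (i + j)) (R 1 (k + (i + j))) := by
  rw [← alphaN_block k (i + j)]
  refine alphaN_congr ?_ ?_ fun Z hZ _ => XZ_move k i j hZ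
  · simp only [List.length_append, B_length, R_length]; ring
  · simp only [List.length_append, B_length, R_length]

end LibMT
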