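import Pool.Agent.LibMT.Branch

/-!
Extension of rational identities to the point `1`, and the kernel lemma: a linear relation
between the functions `XZ w` valid on all admissible point sets gives the same linear relation
between the numbers `alphaN w`.
-/

namespace LibMT

open Finset HasOmega
open scoped Polynomial

section reg

variable {K : Type*} [Field K]

/-- `F` is a rational function without poles outside `S`. -/
def Reg (S : Finset K) (F : K → K) : Prop :=
  ∃ P Q : K[X], (∀ c, c ∉ S → Q.eval c ≠ 0) ∧ ∀ c, c ∉ S → F c * Q.eval c = P.eval c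

theorem Reg.const (S : Finset K) (a : K) : Reg S (fun _ => a) :=
  ⟨Polynomial.C a, 1, by simp, by simp⟩

theorem Reg.poly (S : Finset K) (P : K[X]) : Reg S (fun c => P.eval c) :=
  ⟨P, 1, by simp, by simp⟩

theorem Reg.id (S : Finset K) : Reg S (fun c => c) :=
  ⟨Polynomial.X, 1, by simp, by simp⟩

theorem Reg.add {S : Finset K} {F G : K → K} (hF : Reg S F) (hG : Reg S G) :
    Reg S (fun c => F c + G c) := by
  obtain ⟨P, Q, hQ, h⟩ := hF
  obtain ⟨P', Q', hQ', h'⟩ := hG
  refine ⟨P * Q' + P' * Q, Q * Q', fun c hc => ?_, fun c hc => ?_⟩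
  · rw [Polynomial.eval_mul]; exact mul_ne_zero (hQ c hc) (hQ' c hc)
  · simp only [Polynomial.eval_mul, Polynomial.eval_add]
    rw [← h c hc, ← h' c hc]
    ring

theorem Reg.mul {S : Finset K} {F G : K → K} (hF : Reg S F) (hG : Reg S G) :
    Reg S (fun c => F c * G c) := by
  obtain ⟨P, Q, hQ, h⟩ := hF
  obtain ⟨P', Q', hQ', h'⟩ := hG
  refine ⟨P * P', Q * Q', fun c hc => ?_, fun c hc => ?_⟩
  · rw [Polynomial.eval_mul]; exact mul_ne_zero (hQ c hc) (hQ' c hc)
  · simp only [Polynomial.eval_mul]
    rw [← h c hc, ← h' c hc]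
    ring

theorem Reg.inv {S : Finset K} {F : K → K} (hF : Reg S F) (h0 : ∀ c, c ∉ S → F c ≠ 0) :
    Reg S (fun c => (F c)⁻¹) := by
  obtain ⟨P, Q, hQ, h⟩ := hF
  refine ⟨Q, P, fun c hc => ?_, fun c hc => ?_⟩
  · rw [← h c hc]; exact mul_ne_zero (h0 c hc) (hQ c hc)
  · rw [← h c hc, inv_mul_cancel_left₀ (h0 c hc)]

theorem Reg.div {S : Finset K} {F G : K → K} (hF : Reg S F) (hG : Reg S G)
    (h0 : ∀ c, c ∉ S → G c ≠ 0) : Reg S (fun c => F c / G c) := by
  simp only [div_eq_mul_inv]
  exact hF.mul (hG.inv h0)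

theorem Reg.pow {S : Finset K} {F : K → K} (hF : Reg S F) (n : ℕ) :
    Reg S (fun c => F c ^ n) := by
  induction n with
  | zero => simpa using Reg.const S 1
  | succ n ih => simpa only [pow_succ] using ih.mul hF

theorem Reg.zpow {S : Finset K} {F : K → K} (hF : Reg S F) (h0 : ∀ c, c ∉ S → F c ≠ 0) (n : ℤ) :
    Reg S (fun c => F c ^ n) := by
  obtain ⟨k, rfl | rfl⟩ := n.eq_nat_or_neg
  · simpa using hF.pow k
  · simp only [zpow_neg, zpow_natCast]
    exact (hF.pow k).inv fun c hc => pow_ne_zero _ (h0 c hc)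

theorem Reg.sum {ι : Type*} {S : Finset K} (s : Finset ι) {F : ι → K → K}
    (hF : ∀ i ∈ s, Reg S (F i)) : Reg S (fun c => ∑ i ∈ s, F i c) := by
  classical
  induction s using Finset.induction_on with
  | empty => simpa using Reg.const S 0
  | insert a s ha ih =>
    simp only [Finset.sum_insert ha]
    exact (hF a (Finset.mem_insert_self _ _)).add
      (ih fun i hi => hF i (Finset.mem_insert_of_mem hi))

theorem Reg.prod {ι : Type*} {S : Finset K} (s : Finset ι) {F : ι → K → K}
    (hF : ∀ i ∈ s, Reg S (F i)) : Reg S (fun c => ∏ i ∈ s, F i c) := by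
  classical
  induction s using Finset.induction_on with
  | empty => simpa using Reg.const S 1
  | insert a s ha ih =>
    simp only [Finset.prod_insert ha]
    exact (hF a (Finset.mem_insert_self _ _)).mul
      (ih fun i hi => hF i (Finset.mem_insert_of_mem hi))

theorem Reg.mono {S T : Finset K} (hST : S ⊆ T) {F : K → K} (hF : Reg S F) : Reg T F := by
  obtain ⟨P, Q, hQ, h⟩ := hF
  exact ⟨P, Q, fun c hc => hQ c fun h' => hc (hST h'), fun c hc => h c fun h' => hc (hST h')⟩

theorem Reg.congr {S : Finset K} {F G : K → K} (hF : Reg S F) (h : ∀ c, c ∉ S → F c = G c) :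
    Reg S G := by
  obtain ⟨P, Q, hQ, h'⟩ := hF
  exact ⟨P, Q, hQ, fun c hc => by rw [← h c hc]; exact h' c hc⟩

theorem Reg.eq_zero [CharZero K] {S : Finset K} {F : K → K} (hF : Reg S F) (T : Finset K)
    (h : ∀ c, c ∉ S → c ∉ T → F c = 0) : ∀ c, c ∉ S → F c = 0 := by
  classical
  obtain ⟨P, Q, hQ, h'⟩ := hF
  have hP : P = 0 := by
    apply Polynomial.eq_zero_of_infinite_isRoot
    refine Set.Infinite.mono ?_ (Set.Finite.infinite_compl (S ∪ T).finite_toSet)
    intro c hc
    simp only [Finset.coe_union, Set.mem_compl_iff, Set.mem_union, Finset.mem_coe, not_or] at hc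
    show P.IsRoot c
    rw [Polynomial.IsRoot.def, ← h' c hc.1, h c hc.1 hc.2, zero_mul]
  intro c hc
  have := h' c hc
  rw [hP, Polynomial.eval_zero] at this
  exact (mul_eq_zero.1 this).resolve_right (hQ c hc)

end reg

variable {K : Type*} [Field K] [DecidableEq K] [HasOmega K]

/-- The poles of `c ↦ XZ w (insert c Z)`. -/
def poles (Z : Finset K) : Finset K := insert om (insert (om ^ 2) Z)

theorem mem_poles {Z : Finset K} {c : K} : c ∈ poles Z ↔ c = om ∨ c = om ^ 2 ∨ c ∈ Z := by
  simp [poles]

theorem poles_mono {Z Z' : Finset K} (h : Z ⊆ Z') : poles Z ⊆ poles Z' := by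
  intro c hc
  rw [mem_poles] at hc ⊢
  tauto

theorem reg_zf (Z : Finset K) : Reg (poles Z) (fun c => zf c) := by
  refine ⟨Polynomial.C (- om ^ 2) * (Polynomial.X - Polynomial.C om),
    Polynomial.X - Polynomial.C (om ^ 2), fun c hc => ?_, fun c hc => ?_⟩
  · rw [mem_poles] at hc
    simp only [Polynomial.eval_sub, Polynomial.eval_X, Polynomial.eval_C]
    exact sub_ne_zero.2 fun h => hc (Or.inr (Or.inl h))
  · rw [mem_poles] at hc
    have : c - om ^ 2 ≠ 0 := sub_ne_zero.2 fun h => hc (Or.inr (Or.inl h))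
    simp only [Polynomial.eval_sub, Polynomial.eval_X, Polynomial.eval_C, Polynomial.eval_mul]
    unfold zf
    rw [div_mul_cancel₀ _ this]

theorem zf_ne_zero_of_notMem {Z : Finset K} {c : K} (hc : c ∉ poles Z) : zf c ≠ 0 := by
  rw [mem_poles] at hc
  exact zf_ne_zero (fun h => hc (Or.inr (Or.inl h))) (fun h => hc (Or.inl h))

theorem reg_kp_left {Z : Finset K} {j : K} (hj : j ∈ Z) : Reg (poles Z) (fun c => kp c j) := by
  refine Reg.congr (F := fun c => (- om * (j - om * c)) / (j - c)) ?_ fun c _ => rfl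
  refine Reg.div ?_ ?_ ?_
  · refine (Reg.poly _ (Polynomial.C (- om) * (Polynomial.C j - Polynomial.C om *
      Polynomial.X))).congr fun c _ => ?_
    simp
  · refine (Reg.poly _ (Polynomial.C j - Polynomial.X)).congr fun c _ => ?_
    simp
  · intro c hc
    rw [mem_poles] at hc
    exact sub_ne_zero.2 fun h => hc (Or.inr (Or.inr (h ▸ hj)))

theorem reg_kp_right {Z : Finset K} {j : K} (hj : j ∈ Z) : Reg (poles Z) (fun c => kp j c) := by
  refine Reg.congr (F := fun c => (- om * (c - om * j)) / (c - j)) ?_ fun c _ => rfl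
  refine Reg.div ?_ ?_ ?_
  · refine (Reg.poly _ (Polynomial.C (- om) * (Polynomial.X - Polynomial.C om *
      Polynomial.C j))).congr fun c _ => ?_
    simp
  · refine (Reg.poly _ (Polynomial.X - Polynomial.C j)).congr fun c _ => ?_
    simp
  · intro c hc
    rw [mem_poles] at hc
    exact sub_ne_zero.2 fun h => hc (Or.inr (Or.inr (h ▸ hj)))

theorem reg_XZ (w : List ℤ) : ∀ Z : Finset K, Reg (poles Z) (fun c => XZ w (insert c Z)) := by
  induction w with
  | nil =>
    intro Z
    refine (Reg.const _ 0).congr fun c _ => ?_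
    rw [XZ_nil, if_neg (Finset.insert_ne_empty _ _)]
  | cons x w ih =>
    intro Z
    refine Reg.congr (F := fun c => zf c ^ x * (∏ j ∈ Z, kp c j) * XZ w Z
      + ∑ d ∈ Z, zf d ^ x * (kp d c * ∏ j ∈ Z.erase d, kp d j) * XZ w (insert c (Z.erase d))) ?_ ?_
    · refine Reg.add ?_ ?_
      · refine ((Reg.zpow (reg_zf Z) (fun c hc => zf_ne_zero_of_notMem hc) x).mul ?_).mul
          (Reg.const _ _)
        exact Reg.prod _ fun j hj => reg_kp_left hj
      · refine Reg.sum _ fun d hd => ?_
        refine ((Reg.const _ _).mul ((reg_kp_right hd).mul (Reg.const _ _))).mul ?_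
        exact (ih (Z.erase d)).mono (poles_mono (Finset.erase_subset _ _))
    · intro c hc
      have hcZ : c ∉ Z := fun h => hc (mem_poles.2 (Or.inr (Or.inr h)))
      rw [XZ_cons, Finset.sum_insert hcZ, Finset.erase_insert hcZ]
      congr 1
      refine Finset.sum_congr rfl fun d hd => ?_
      have hcd : c ≠ d := fun h => hcZ (h ▸ hd)
      rw [Finset.erase_insert_of_ne hcd,
        Finset.prod_insert (fun h => hcZ (Finset.mem_of_mem_erase h))]

/-- Exceptional points. -/
noncomputable def excl (Z : Finset K) : Finset K :=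
  (insert 0 (insert 1 (Z.image (fun a => a ^ 3)))).biUnion
    fun a => (Polynomial.nthRoots 3 a).toFinset

omit [HasOmega K] in
theorem notMem_excl {Z : Finset K} {c : K} (hc : c ∉ excl Z) :
    c ≠ 0 ∧ c ^ 3 ≠ 1 ∧ ∀ a ∈ Z, c ^ 3 ≠ a ^ 3 := by
  simp only [excl, Finset.mem_biUnion, not_exists, not_and, Multiset.mem_toFinset,
    Polynomial.mem_nthRoots (by norm_num : 0 < 3), Finset.mem_insert, Finset.mem_image] at hc
  refine ⟨fun h => hc 0 (Or.inl rfl) (by rw [h]; ring), fun h => hc 1 (Or.inr (Or.inl rfl)) h,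
    fun a ha h => hc (a ^ 3) (Or.inr (Or.inr ⟨a, ha, rfl⟩)) h⟩

omit [HasOmega K] in
theorem Good.insert_of_notMem {Z : Finset K} (hZ : Good Z) {c : K} (hc : c ∉ excl Z) :
    Good (insert c Z) := by
  obtain ⟨h0, h1, h2⟩ := notMem_excl hc
  refine ⟨fun a ha b hb hab => ?_, fun a ha => ?_⟩
  · rw [Finset.mem_insert] at ha hb
    rcases ha with rfl | ha <;> rcases hb with rfl | hb
    · rfl
    · exact absurd hab (h2 b hb)
    · exact absurd hab.symm (h2 a ha)
    · exact hZ.1 a ha b hb hab
  · rw [Finset.mem_insert] at ha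
    rcases ha with rfl | ha
    · exact ⟨h0, h1⟩
    · exact hZ.2 a ha

omit [HasOmega K] in
theorem notMem_of_notMem_excl {Z : Finset K} {c : K} (hc : c ∉ excl Z) : c ∉ Z :=
  fun h => (notMem_excl hc).2.2 c h rfl

theorem Good.one_notMem_poles [CharZero K] {Z : Finset K} (hZ : Good Z) : (1 : K) ∉ poles Z := by
  rw [mem_poles]
  rintro (h | h | h)
  · exact om_ne_one h.symm
  · exact om_sq_ne_one h.symm
  · exact hZ.one_notMem h

/-- The extension principle: a rational function which vanishes whenever `insert c Z` is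
admissible vanishes at `1`. -/
theorem Reg.eq_zero_one [CharZero K] {Z : Finset K} (hZ : Good Z) {F : K → K}
    (hF : Reg (poles Z) F) (h : ∀ c, c ∉ Z → Good (insert c Z) → F c = 0) : F 1 = 0 :=
  hF.eq_zero (excl Z) (fun _ _ hc => h _ (notMem_of_notMem_excl hc) (hZ.insert_of_notMem hc)) 1
    hZ.one_notMem_poles

/-- The two-function form of the extension principle. -/
theorem Reg.eq_one [CharZero K] {Z : Finset K} (hZ : Good Z) {F G : K → K}
    (hF : Reg (poles Z) F) (hG : Reg (poles Z) G)
    (h : ∀ c, c ∉ Z → Good (insert c Z) → F c = G c) : F 1 = G 1 := by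
  have := Reg.eq_zero_one hZ (hF.add ((Reg.const _ (-1)).mul hG)) (fun c hc hg => by
    rw [h c hc hg]; ring)
  linear_combination this

section functional

variable (K) in
/-- The space of evaluation functionals on words of length `n`. -/
def V (n : ℕ) : Submodule K ((List ℤ → K) → K) :=
  Submodule.span K {L | ∃ w : List ℤ, w.length = n ∧ L = fun g => g w}

omit [DecidableEq K] [HasOmega K] in
theorem V_eval (w : List ℤ) : (fun g : List ℤ → K => g w) ∈ V K w.length :=
  Submodule.subset_span ⟨w, rfl, rfl⟩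

omit [DecidableEq K] [HasOmega K] in
theorem V_congr {n : ℕ} {L : (List ℤ → K) → K} (hL : L ∈ V K n) {g h : List ℤ → K}
    (hgh : ∀ w, w.length = n → g w = h w) : L g = L h := by
  induction hL using Submodule.span_induction with
  | mem L hL => obtain ⟨w, hw, rfl⟩ := hL; exact hgh w hw
  | zero => rfl
  | add L M _ _ h1 h2 => simp only [Pi.add_apply, h1, h2]
  | smul a L _ h1 => simp only [Pi.smul_apply, h1]

omit [DecidableEq K] [HasOmega K] in
theorem V_cons {n : ℕ} {L : (List ℤ → K) → K} (hL : L ∈ V K n) (l : ℤ) :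
    (fun g : List ℤ → K => L (fun v => g (l :: v))) ∈ V K (n + 1) := by
  induction hL using Submodule.span_induction with
  | mem L hL =>
    obtain ⟨w, hw, rfl⟩ := hL
    exact Submodule.subset_span ⟨l :: w, by simp [hw], rfl⟩
  | zero => exact Submodule.zero_mem _
  | add L M _ _ h1 h2 => exact Submodule.add_mem _ h1 h2
  | smul a L _ h1 => exact Submodule.smul_mem _ a h1

omit [DecidableEq K] [HasOmega K] in
theorem V_sum {ι : Type*} {n : ℕ} (s : Finset ι) {L : ι → (List ℤ → K) → K}
    (hL : ∀ i ∈ s, L i ∈ V K n) : (fun g : List ℤ → K => ∑ i ∈ s, L i g) ∈ V K n := by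
  have := Submodule.sum_mem (V K n) hL
  convert this using 1
  ext g
  simp

omit [DecidableEq K] [HasOmega K] in
theorem V_tsumAux (w : List ℤ) : ∀ x : ℤ,
    (fun g : List ℤ → K => tsumAux x w g) ∈ V K w.length := by
  induction w with
  | nil => intro x; exact V_eval []
  | cons y w ih =>
    intro x
    simp only [tsumAux_cons]
    refine Submodule.add_mem _ ?_ (V_cons (ih (y + 1)) y)
    unfold esum
    exact Submodule.sub_mem _ (V_sum _ fun l _ => V_cons (ih y) l)
      (V_sum _ fun l _ => V_cons (ih y) l)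

end functional

section alpha

variable {A : Type*} [CommRing A]

/-- Row summation applied to a word. -/
noncomputable def tsum : List ℤ → (List ℤ → A) → A
  | [], _ => 0
  | x :: w, g => tsumAux x w g

variable (A) in
/-- The value of the monotone triangle polynomial, by iterated row summation. -/
noncomputable def alphaN : ℕ → List ℤ → A
  | 0, _ => 1
  | n + 1, w => tsum w (alphaN n)

end alpha

omit [DecidableEq K] [HasOmega K] in
theorem V_tsum {n : ℕ} {L : (List ℤ → K) → K} (hL : L ∈ V K (n + 1)) :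
    (fun g : List ℤ → K => L (fun w => tsum w g)) ∈ V K n := by
  induction hL using Submodule.span_induction with
  | mem L hL =>
    obtain ⟨w, hw, rfl⟩ := hL
    cases w with
    | nil => simp at hw
    | cons x w =>
      have : w.length = n := by simpa using hw
      rw [← this]
      exact V_tsumAux w x
  | zero => exact Submodule.zero_mem _
  | add L M _ _ h1 h2 => exact Submodule.add_mem _ h1 h2
  | smul a L _ h1 => exact Submodule.smul_mem _ a h1

theorem V_reg {n : ℕ} {L : (List ℤ → K) → K} (hL : L ∈ V K n) (Z : Finset K) :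
    Reg (poles Z) (fun c => L (fun w => XZ w (insert c Z))) := by
  induction hL using Submodule.span_induction with
  | mem L hL =>
    obtain ⟨w, hw, rfl⟩ := hL
    exact reg_XZ w Z
  | zero => exact Reg.const _ 0
  | add L M _ _ h1 h2 => exact h1.add h2
  | smul a L _ h1 => exact (Reg.const _ a).mul h1

/-- The kernel lemma. -/
theorem kernel [CharZero K] : ∀ (n : ℕ) {L : (List ℤ → K) → K}, L ∈ V K n →
    (∀ Z : Finset K, Good Z → Z.card = n → L (fun w => XZ w Z) = 0) → L (alphaN K n) = 0 := by
  intro n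
  induction n with
  | zero =>
    intro L hL h
    have h1 := h ∅ ⟨by simp, by simp⟩ (by simp)
    rw [← h1]
    refine V_congr hL fun w hw => ?_
    rw [List.length_eq_zero_iff.1 hw, XZ_nil]
    simp [alphaN]
  | succ n ih =>
    intro L hL h
    refine ih (V_tsum hL) fun Z hZ hc => ?_
    have e : L (fun w => tsum w (fun v => XZ v Z)) = L (fun w => XZ w (insert 1 Z)) := by
      refine V_congr hL fun w hw => ?_
      cases w with
      | nil => simp at hw
      | cons x w => exact (XZ_insert_one w x Z hZ).symm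
    show L (fun w => tsum w (fun v => XZ v Z)) = 0
    rw [e]
    refine Reg.eq_zero_one (F := fun c => L (fun w => XZ w (insert c Z))) hZ (V_reg hL Z)
      fun c hc' hg => ?_
    exact h _ hg (by rw [Finset.card_insert_of_notMem hc', hc])

/-- If two words of length `n` have the same `X` on admissible sets of `n` points then they have
the same value of `alphaN`. -/
theorem alphaN_congr [CharZero K] {n : ℕ} {v w : List ℤ} (hv : v.length = n) (hw : w.length = n)
    (h : ∀ Z : Finset K, Good Z → Z.card = n → XZ v Z = XZ w Z) :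
    alphaN K n v = alphaN K n w := by
  have hL : (fun g : List ℤ → K => g v - g w) ∈ V K n :=
    Submodule.sub_mem _ (hv ▸ V_eval v) (hw ▸ V_eval w)
  have := kernel n hL fun Z hZ hc => sub_eq_zero.2 (h Z hZ hc)
  exact sub_eq_zero.1 this

/-- If adjoining `1` to the point set turns the word `v` of length `n+1` into the word `w` of
length `n`, then the values of `alphaN` agree. -/
theorem alphaN_succ_congr [CharZero K] {n : ℕ} {v w : List ℤ} (hv : v.length = n + 1)
    (hw : w.length = n)
    (h : ∀ Z : Finset K, Good Z → Z.card = n → XZ v (insert 1 Z) = XZ w Z) :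
    alphaN K (n + 1) v = alphaN K n w := by
  cases v with
  | nil => simp at hv
  | cons x v =>
    have hv' : v.length = n := by simpa using hv
    have hL : (fun g : List ℤ → K => tsumAux x v g - g w) ∈ V K n :=
      Submodule.sub_mem _ (hv' ▸ V_tsumAux v x) (hw ▸ V_eval w)
    have := kernel n hL fun Z hZ hc => by
      rw [← XZ_insert_one v x Z hZ, h Z hZ hc, sub_self]
    exact sub_eq_zero.1 this

end LibMT
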