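import Pool.Agent.LibMT.Det
import Pool.Agent.LibMT.Kernel

/-!
The values of `X` on the doubled decreasing words, and the relations between words leading to
the reverse-and-duplicate identity.
-/

namespace LibMT

open Finset HasOmega
open scoped Polynomial

/-- The word `(m+k-1)(m+k-1)⋯(m+1)(m+1) m m`. -/
def B : ℕ → ℤ → List ℤ
  | 0, _ => []
  | k + 1, m => (m + k) :: (m + k) :: B k m

/-- The word `a (a+1) ⋯ (a+j-1)`. -/
def R (a : ℤ) : ℕ → List ℤ
  | 0 => []
  | j + 1 => R a j ++ [a + j]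

theorem B_succ' (k : ℕ) : ∀ m : ℤ, B (k + 1) m = B k (m + 1) ++ [m, m] := by
  induction k with
  | zero => intro m; simp [B]
  | succ k ih =>
    intro m
    rw [B, ih m, B]
    simp only [List.cons_append, List.cons.injEq]
    push_cast
    exact ⟨by ring, by ring, trivial⟩

theorem B_length (k : ℕ) (m : ℤ) : (B k m).length = 2 * k := by
  induction k with
  | zero => rfl
  | succ k ih => rw [B]; simp [ih]; ring

theorem R_length (a : ℤ) (j : ℕ) : (R a j).length = j := by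
  induction j with
  | zero => rfl
  | succ j ih => rw [R]; simp [ih]

theorem B_shift (k : ℕ) (m : ℤ) : B k (m + 1) = (B k m).map (· + 1) := by
  induction k with
  | zero => rfl
  | succ k ih =>
    rw [B, B, ih]
    simp only [List.map_cons, List.cons.injEq]
    exact ⟨by ring, by ring, trivial⟩

theorem R_succ' (a : ℤ) (j : ℕ) : R a (j + 1) = a :: R (a + 1) j := by
  induction j with
  | zero => simp [R]
  | succ j ih =>
    rw [R, ih, R]
    simp only [List.cons_append, List.cons.injEq, true_and]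
    congr 2
    push_cast
    ring

variable {K : Type*} [Field K] [DecidableEq K] [HasOmega K]

theorem XZ_shift (w : List ℤ) : ∀ Z : Finset K, Good Z →
    XZ (w.map (· + 1)) Z = (∏ u ∈ Z, zf u) * XZ w Z := by
  induction w with
  | nil =>
    intro Z _
    rw [List.map_nil, XZ_nil]
    split_ifs with h
    · rw [h]; simp
    · simp
  | cons x w ih =>
    intro Z hZ
    rw [List.map_cons, XZ_cons, XZ_cons, Finset.mul_sum]
    refine Finset.sum_congr rfl fun c hc => ?_
    rw [ih _ (hZ.erase c), ← Finset.mul_prod_erase Z zf hc,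
      zpow_add_one₀ (zf_ne_zero (hZ.ne_om_sq hc) (hZ.ne_om hc))]
    ring

/-- `∏ (u - ω)`. -/
def PA (U : Finset K) : K := ∏ u ∈ U, (u - om)

/-- `∏ (u - ω²)`. -/
def PD (U : Finset K) : K := ∏ u ∈ U, (u - om ^ 2)

theorem PA_erase {U : Finset K} {v : K} (hv : v ∈ U) : PA U = (v - om) * PA (U.erase v) :=
  (Finset.mul_prod_erase U (fun u => u - om) hv).symm

theorem PD_erase {U : Finset K} {v : K} (hv : v ∈ U) : PD U = (v - om ^ 2) * PD (U.erase v) :=
  (Finset.mul_prod_erase U (fun u => u - om ^ 2) hv).symm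

theorem PA_insert {U : Finset K} {v : K} (hv : v ∉ U) : PA (insert v U) = (v - om) * PA U :=
  Finset.prod_insert hv

theorem PD_insert {U : Finset K} {v : K} (hv : v ∉ U) : PD (insert v U) = (v - om ^ 2) * PD U :=
  Finset.prod_insert hv

omit [DecidableEq K] in
theorem PA_ne_zero {U : Finset K} (hU : Good U) : PA U ≠ 0 :=
  Finset.prod_ne_zero_iff.2 fun _ hu => sub_ne_zero.2 (hU.ne_om hu)

omit [DecidableEq K] in
theorem PD_ne_zero {U : Finset K} (hU : Good U) : PD U ≠ 0 :=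
  Finset.prod_ne_zero_iff.2 fun _ hu => sub_ne_zero.2 (hU.ne_om_sq hu)

omit [DecidableEq K] in
theorem kp_eq_left {j v : K} (h : j ≠ v) : kp j v = (- om ^ 2) * ((j - om ^ 2 * v) / (j - v)) := by
  have h1 : (om : K) ^ 2 + om + 1 = 0 := om_eq
  have h2 : j - v ≠ 0 := sub_ne_zero.2 h
  have h3 : v - j ≠ 0 := sub_ne_zero.2 (Ne.symm h)
  unfold kp
  field_simp
  grind

omit [DecidableEq K] in
theorem kp_eq_right (j v : K) : kp v j = (- om) * ((j - om * v) / (j - v)) := by
  unfold kp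
  ring

theorem prod_kp_left {V : Finset K} {N : ℕ} (hV : V.card = N + 1) {v : K} (hv : v ∈ V) :
    ∏ j ∈ V.erase v, kp j v = (- om ^ 2) ^ N * ∏ j ∈ V.erase v, (j - om ^ 2 * v) / (j - v) := by
  have h1 : (V.erase v).card = N := by rw [Finset.card_erase_of_mem hv, hV]; rfl
  rw [← h1, ← Finset.prod_const, ← Finset.prod_mul_distrib]
  exact Finset.prod_congr rfl fun j hj => kp_eq_left (Finset.ne_of_mem_erase hj)

theorem prod_kp_right {V : Finset K} {N : ℕ} (hV : V.card = N + 1) {v : K} (hv : v ∈ V) :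
    ∏ j ∈ V.erase v, kp v j = (- om) ^ N * ∏ j ∈ V.erase v, (j - om * v) / (j - v) := by
  have h1 : (V.erase v).card = N := by rw [Finset.card_erase_of_mem hv, hV]; rfl
  rw [← h1, ← Finset.prod_const, ← Finset.prod_mul_distrib]
  exact Finset.prod_congr rfl fun j _ => kp_eq_right j v

omit [DecidableEq K] in
theorem neg_om_sq_pow (k : ℕ) : (- om ^ 2 : K) ^ (2 * k) = om ^ k := by
  have h3 : (om : K) ^ 3 = 1 := om_cube
  rw [pow_mul]
  congr 1
  calc (- om ^ 2 : K) ^ 2 = om ^ 3 * om := by ring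
    _ = om := by rw [h3, one_mul]

omit [DecidableEq K] in
theorem neg_om_pow (k : ℕ) : (- om : K) ^ (2 * k) = om ^ (2 * k) := by
  rw [pow_mul, pow_mul]
  congr 1
  ring

omit [DecidableEq K] in
variable (K) in
/-- The constants. -/
def Cc : ℕ → K
  | 0 => 1
  | k + 1 => Cc k * (om * (om - om ^ 2) ^ k * (1 - om ^ 2) ^ k)

/-- The product formula for `X` of the doubled decreasing word. -/
def HH (k : ℕ) : Prop := ∀ U : Finset K, Good U → U.card = 2 * k →
  XZ (B k 1) U = Cc K k * (PA U / PD U ^ k) * sF U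

theorem append_of_HH {k : ℕ} (H : HH (K := K) k) (x : ℤ) {V : Finset K} (hV : Good V)
    (hc : V.card = 2 * k + 1) :
    XZ (B k 1 ++ [x]) V = Cc K k * om ^ k * (PA V / PD V ^ k) *
      ∑ v ∈ V, zf v ^ x * ((v - om ^ 2) ^ k / (v - om)) * sF (V.erase v)
        * ∏ j ∈ V.erase v, (j - om ^ 2 * v) / (j - v) := by
  rw [XZ_append_singleton, Finset.mul_sum]
  refine Finset.sum_congr rfl fun v hv => ?_
  have hce : (V.erase v).card = 2 * k := by rw [Finset.card_erase_of_mem hv, hc]; rfl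
  rw [H _ (hV.erase v) hce, prod_kp_left hc hv, neg_om_sq_pow, PA_erase hv, PD_erase hv]
  have h1 : v - om ≠ 0 := sub_ne_zero.2 (hV.ne_om hv)
  have h2 : v - om ^ 2 ≠ 0 := sub_ne_zero.2 (hV.ne_om_sq hv)
  have h3 : PD (V.erase v) ≠ 0 := PD_ne_zero (hV.erase v)
  rw [mul_pow]
  generalize (∏ j ∈ V.erase v, (j - om ^ 2 * v) / (j - v)) = p
  field_simp

theorem prepend_of_HH {k : ℕ} (H : HH (K := K) k) (x : ℤ) {V : Finset K} (hV : Good V)
    (hc : V.card = 2 * k + 1) :
    XZ (x :: B k 1) V = Cc K k * om ^ (2 * k) * (PA V / PD V ^ k) *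
      ∑ v ∈ V, zf v ^ x * ((v - om ^ 2) ^ k / (v - om)) * sF (V.erase v)
        * ∏ j ∈ V.erase v, (j - om * v) / (j - v) := by
  rw [XZ_cons, Finset.mul_sum]
  refine Finset.sum_congr rfl fun v hv => ?_
  have hce : (V.erase v).card = 2 * k := by rw [Finset.card_erase_of_mem hv, hc]; rfl
  rw [H _ (hV.erase v) hce, prod_kp_right hc hv, neg_om_pow, PA_erase hv, PD_erase hv]
  have h1 : v - om ≠ 0 := sub_ne_zero.2 (hV.ne_om hv)
  have h2 : v - om ^ 2 ≠ 0 := sub_ne_zero.2 (hV.ne_om_sq hv)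
  have h3 : PD (V.erase v) ≠ 0 := PD_ne_zero (hV.erase v)
  rw [mul_pow]
  generalize (∏ j ∈ V.erase v, (j - om * v) / (j - v)) = p
  field_simp

omit [DecidableEq K] [HasOmega K] in
theorem Good.notMem_of_cube {V : Finset K} (hV : Good V) {a : K} (ha : a ^ 3 = 1) : a ∉ V :=
  fun h => (hV.2 a h).2 ha

omit [DecidableEq K] in
theorem om_sq_cube : ((om : K) ^ 2) ^ 3 = 1 := by
  rw [← pow_mul, mul_comm, pow_mul, om_cube, one_pow]

/-- `X(B_k(1) 0)`. -/
theorem XZ_B_zero [CharZero K] {k : ℕ} (H : HH (K := K) k) {V : Finset K} (hV : Good V)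
    (hc : V.card = 2 * k + 1) :
    XZ (B k 1 ++ [0]) V
      = Cc K k * om ^ k * (om - om ^ 2) ^ k / PD V ^ k * sF (insert (om ^ 2) V) := by
  rw [append_of_HH H 0 hV hc]
  have hst := star' (ζ := (om : K)) om_eq om_ne_one hV.1 (fun a ha => (hV.2 a ha).1) hc
    (r := (Polynomial.X - Polynomial.C (om ^ 2)) ^ k)
    ((Polynomial.natDegree_pow_le).trans (by rw [Polynomial.natDegree_X_sub_C, mul_one]))
    (t := om ^ 2) (hV.notMem_of_cube om_sq_cube)
    (by
      have : (om : K) ^ 2 * om ^ 2 = om := by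
        calc (om : K) ^ 2 * om ^ 2 = om ^ 3 * om := by ring
          _ = om := by rw [om_cube, one_mul]
      rw [this]
      exact hV.notMem_of_cube om_cube)
  have h4 : (om : K) ^ 2 * om ^ 2 = om := by
    calc (om : K) ^ 2 * om ^ 2 = om ^ 3 * om := by ring
      _ = om := by rw [om_cube, one_mul]
  simp only [h4, Polynomial.eval_pow, Polynomial.eval_sub, Polynomial.eval_X,
    Polynomial.eval_C] at hst
  have e : ∑ v ∈ V, zf v ^ (0 : ℤ) * ((v - om ^ 2) ^ k / (v - om)) * sF (V.erase v)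
        * ∏ j ∈ V.erase v, (j - om ^ 2 * v) / (j - v)
      = ∑ v ∈ V, (v - om ^ 2) ^ k / (v - om) * sF (V.erase v)
        * ∏ j ∈ V.erase v, (j - om ^ 2 * v) / (j - v) := by
    refine Finset.sum_congr rfl fun v _ => ?_
    rw [zpow_zero, one_mul]
  rw [e, hst]
  have h1 := PA_ne_zero hV
  have h2 := PD_ne_zero hV
  have h3 : ∏ j ∈ V, (j - (om : K)) = PA V := rfl
  rw [h3]
  field_simp

theorem sum_star_two [CharZero K] {k : ℕ} {U : Finset K} (hU : Good U)
    (hc : U.card = 2 * k + 2) :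
    ∑ v ∈ U, (v - om ^ 2) ^ k * sF (insert (om ^ 2) (U.erase v))
        * ∏ j ∈ U.erase v, (j - om ^ 2 * v) / (j - v) = - om * (1 - om ^ 2) ^ k * sF U := by
  have hw : (om : K) ^ 2 ∉ U := hU.notMem_of_cube om_sq_cube
  have hw1 : (om : K) ∉ U := hU.notMem_of_cube om_cube
  have h1U : (1 : K) ∉ U := hU.one_notMem
  have hcV : (insert ((om : K) ^ 2) U).card = 2 * (k + 1) + 1 := by
    rw [Finset.card_insert_of_notMem hw, hc]; ring
  have h3 : (om : K) ^ 3 = 1 := om_cube
  have h23 : ((om : K) ^ 2) ^ 3 = 1 := om_sq_cube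
  have h21 : (om : K) ^ 2 * om = 1 := by rw [← h3]; ring
  have hst := star' (ζ := (om : K)) om_eq om_ne_one (V := insert ((om : K) ^ 2) U) (m := k + 1)
    (by
      intro a ha b hb hab
      rw [Finset.mem_insert] at ha hb
      rcases ha with rfl | ha <;> rcases hb with rfl | hb
      · rfl
      · rw [h23] at hab; exact absurd hab.symm (hU.2 b hb).2
      · rw [h23] at hab; exact absurd hab (hU.2 a ha).2
      · exact hU.1 a ha b hb hab)
    (by
      intro a ha
      rw [Finset.mem_insert] at ha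
      rcases ha with rfl | ha
      · exact pow_ne_zero _ om_ne_zero
      · exact (hU.2 a ha).1)
    hcV (r := (Polynomial.X - Polynomial.C (om ^ 2)) ^ (k + 1))
    ((Polynomial.natDegree_pow_le).trans (by rw [Polynomial.natDegree_X_sub_C, mul_one]))
    (t := om)
    (by
      rw [Finset.mem_insert]
      rintro (h | h)
      · exact om_sq_ne_om h.symm
      · exact hw1 h)
    (by
      rw [h21, Finset.mem_insert]
      rintro (h | h)
      · exact om_sq_ne_one h.symm
      · exact h1U h)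
  simp only [h21, Polynomial.eval_pow, Polynomial.eval_sub, Polynomial.eval_X,
    Polynomial.eval_C] at hst
  rw [Finset.sum_insert hw, Finset.prod_insert hw] at hst
  have e0 : (om ^ 2 - om ^ 2 : K) ^ (k + 1) / (om ^ 2 - 1)
      * sF ((insert (om ^ 2) U).erase (om ^ 2))
      * ∏ j ∈ (insert (om ^ 2) U).erase (om ^ 2), (j - om ^ 2 * om ^ 2) / (j - om ^ 2) = 0 := by
    rw [sub_self, zero_pow (Nat.succ_ne_zero k)]
    ring
  rw [e0, zero_add] at hst
  have hom21 : (om : K) ^ 2 - 1 ≠ 0 := sub_ne_zero.2 om_sq_ne_one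
  have e1 : ∑ v ∈ U, (v - om ^ 2) ^ (k + 1) / (v - 1) * sF ((insert (om ^ 2) U).erase v)
        * ∏ j ∈ (insert (om ^ 2) U).erase v, (j - om ^ 2 * v) / (j - v)
      = om ^ 2 * ∑ v ∈ U, (v - om ^ 2) ^ k * sF (insert (om ^ 2) (U.erase v))
        * ∏ j ∈ U.erase v, (j - om ^ 2 * v) / (j - v) := by
    rw [Finset.mul_sum]
    refine Finset.sum_congr rfl fun v hv => ?_
    have hne : (om : K) ^ 2 ≠ v := fun h => hw (h ▸ hv)
    rw [Finset.erase_insert_of_ne hne, Finset.prod_insert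
      (fun h => hw (Finset.mem_of_mem_erase h))]
    have h5 : v - 1 ≠ 0 := sub_ne_zero.2 (hU.ne_one hv)
    have h6 : v - om ^ 2 ≠ 0 := sub_ne_zero.2 (hU.ne_om_sq hv)
    have h7 : om ^ 2 - v ≠ 0 := sub_ne_zero.2 hne
    have h8 : (v - om ^ 2) ^ (k + 1) / (v - 1) * ((om ^ 2 - om ^ 2 * v) / (om ^ 2 - v))
        = om ^ 2 * (v - om ^ 2) ^ k := by
      rw [pow_succ]
      field_simp
      ring
    linear_combination (sF (insert (om ^ 2) (U.erase v))
      * ∏ j ∈ U.erase v, (j - om ^ 2 * v) / (j - v)) * h8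
  rw [e1] at hst
  have e2 : sF (insert (om : K) (insert (om ^ 2) U)) = (∏ j ∈ U, (j - 1)) * sF U := by
    have h9 : (om : K) * om = om ^ 2 := by ring
    have := sF_special (ζ := (om : K)) om_eq (Y := U) rfl (v := om) hw1 (by rw [h9]; exact hw)
      (by rw [h9]; exact om_sq_ne_om)
    rw [h9, h21] at this
    exact this
  rw [e2] at hst
  have h10 : ∏ j ∈ U, (j - (1 : K)) ≠ 0 :=
    Finset.prod_ne_zero_iff.2 fun j hj => sub_ne_zero.2 (hU.ne_one hj)
  have h11 : (1 - om ^ 2 : K) ^ (k + 1) * ((∏ j ∈ U, (j - 1)) * sF U) /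
      ((om ^ 2 - 1) * ∏ x ∈ U, (x - 1)) = - (1 - om ^ 2) ^ k * sF U := by
    have : (1 - om ^ 2 : K) = - (om ^ 2 - 1) := by ring
    rw [pow_succ]
    nth_rewrite 2 [this]
    field_simp
  rw [h11] at hst
  linear_combination om * hst - (∑ v ∈ U, (v - om ^ 2) ^ k * sF (insert (om ^ 2) (U.erase v))
        * ∏ j ∈ U.erase v, (j - om ^ 2 * v) / (j - v)) * h3

omit [DecidableEq K] in
theorem prod_zf {U : Finset K} {N : ℕ} (hc : U.card = 2 * N) :
    ∏ u ∈ U, zf u = om ^ N * (PA U / PD U) := by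
  have : ∀ u ∈ U, zf u = (- om ^ 2) * ((u - om) / (u - om ^ 2)) := by
    intro u _
    unfold zf
    ring
  rw [Finset.prod_congr rfl this, Finset.prod_mul_distrib, Finset.prod_const, hc, neg_om_sq_pow,
    Finset.prod_div_distrib]
  rfl

omit [DecidableEq K] in
theorem prod_zf_odd {U : Finset K} {N : ℕ} (hc : U.card = 2 * N + 1) :
    ∏ u ∈ U, zf u = - om ^ (N + 2) * (PA U / PD U) := by
  have : ∀ u ∈ U, zf u = (- om ^ 2) * ((u - om) / (u - om ^ 2)) := by
    intro u _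
    unfold zf
    ring
  rw [Finset.prod_congr rfl this, Finset.prod_mul_distrib, Finset.prod_const, hc, pow_succ,
    neg_om_sq_pow, Finset.prod_div_distrib]
  unfold PA PD
  ring

theorem HH_zero : HH (K := K) 0 := by
  intro U _ hc
  have hU : U = ∅ := by
    rw [← Finset.card_eq_zero]; simpa using hc
  subst hU
  have h1 : sF (∅ : Finset K) = 1 := by
    rw [sF_eq_sT (N := 0) (fun _ => 0) (fun i => i.elim0) (fun a => by simp)]
    unfold sT
    simp
  rw [h1]
  simp [B, XZ_nil, Cc, PA]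

theorem HH_succ [CharZero K] {k : ℕ} (H : HH (K := K) k) : HH (K := K) (k + 1) := by
  intro U hU hc
  have hc' : U.card = 2 * k + 2 := by rw [hc]; ring
  have hw : B (k + 1) 1 = ((B k 1 ++ [0]) ++ [0]).map (· + 1) := by
    rw [B_succ', B_shift]
    simp
  rw [hw, XZ_shift _ U hU, prod_zf (N := k + 1) hc, XZ_append_singleton]
  have e : ∑ c ∈ U, zf c ^ (0 : ℤ) * (∏ j ∈ U.erase c, kp j c) * XZ (B k 1 ++ [0]) (U.erase c)
      = (- om ^ 2) ^ (2 * k + 1) * (Cc K k * om ^ k * (om - om ^ 2) ^ k / PD U ^ k) *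
        ∑ v ∈ U, (v - om ^ 2) ^ k * sF (insert (om ^ 2) (U.erase v))
        * ∏ j ∈ U.erase v, (j - om ^ 2 * v) / (j - v) := by
    rw [Finset.mul_sum]
    refine Finset.sum_congr rfl fun v hv => ?_
    have hce : (U.erase v).card = 2 * k + 1 := by rw [Finset.card_erase_of_mem hv, hc']; rfl
    rw [XZ_B_zero H (hU.erase v) hce, prod_kp_left (N := 2 * k + 1) hc' hv, PD_erase hv, mul_pow]
    have h2 : v - om ^ 2 ≠ 0 := sub_ne_zero.2 (hU.ne_om_sq hv)
    have h3 : PD (U.erase v) ≠ 0 := PD_ne_zero (hU.erase v)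
    generalize (∏ j ∈ U.erase v, (j - om ^ 2 * v) / (j - v)) = p
    rw [zpow_zero]
    field_simp
  rw [e, sum_star_two hU hc', pow_succ (- om ^ 2 : K), neg_om_sq_pow, Cc, pow_succ (PD U)]
  have h3 : (om : K) ^ 3 = 1 := om_cube
  have h2 := PD_ne_zero hU
  have h4 : (om : K) ^ (k + 1) * (om ^ k * (- om ^ 2) * om ^ k * (- om)) = om := by
    calc (om : K) ^ (k + 1) * (om ^ k * (- om ^ 2) * om ^ k * (- om))
        = (om ^ 3) ^ (k + 1) * om := by ring
      _ = om := by rw [h3, one_pow, one_mul]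
  have h5 : (om : K) ^ (k + 1) * (PA U / PD U) *
      (om ^ k * (- om ^ 2) * (Cc K k * om ^ k * (om - om ^ 2) ^ k / PD U ^ k) *
        (- om * (1 - om ^ 2) ^ k * sF U))
      = ((om : K) ^ (k + 1) * (om ^ k * (- om ^ 2) * om ^ k * (- om))) *
        (Cc K k * (om - om ^ 2) ^ k * (1 - om ^ 2) ^ k * (PA U / (PD U ^ k * PD U)) * sF U) := by
    field_simp
  rw [h5, h4]
  ring

theorem HH_all [CharZero K] : ∀ k : ℕ, HH (K := K) k
  | 0 => HH_zero
  | k + 1 => HH_succ (HH_all k)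

/-- The common value of `X(B_k(1) (k+1))` and `X(1 B_k(2))`. -/
theorem XZ_B_append [CharZero K] (k : ℕ) {V : Finset K} (hV : Good V)
    (hc : V.card = 2 * k + 1) :
    XZ (B k 1 ++ [(k : ℤ) + 1]) V = - om ^ 2 * Cc K k * (om - om ^ 2) ^ k
      * (PA V / PD V ^ (k + 1)) * sF (insert 1 V) := by
  rw [append_of_HH (HH_all k) _ hV hc]
  have hom2 : (om : K) ^ 2 * 1 = om ^ 2 := mul_one _
  have hst := star' (ζ := (om : K)) om_eq om_ne_one hV.1 (fun a ha => (hV.2 a ha).1) hc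
    (r := (Polynomial.X - Polynomial.C om) ^ k)
    ((Polynomial.natDegree_pow_le).trans (by rw [Polynomial.natDegree_X_sub_C, mul_one]))
    (t := 1) hV.one_notMem (by rw [hom2]; exact hV.notMem_of_cube om_sq_cube)
  simp only [hom2, Polynomial.eval_pow, Polynomial.eval_sub, Polynomial.eval_X,
    Polynomial.eval_C] at hst
  have e : ∑ v ∈ V, zf v ^ ((k : ℤ) + 1) * ((v - om ^ 2) ^ k / (v - om)) * sF (V.erase v)
        * ∏ j ∈ V.erase v, (j - om ^ 2 * v) / (j - v)
      = (- om ^ 2) ^ (k + 1) * ∑ v ∈ V, (v - om) ^ k / (v - om ^ 2) * sF (V.erase v)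
        * ∏ j ∈ V.erase v, (j - om ^ 2 * v) / (j - v) := by
    rw [Finset.mul_sum]
    refine Finset.sum_congr rfl fun v hv => ?_
    have h1 : v - om ≠ 0 := sub_ne_zero.2 (hV.ne_om hv)
    have h2 : v - om ^ 2 ≠ 0 := sub_ne_zero.2 (hV.ne_om_sq hv)
    have h3 : zf v ^ ((k : ℤ) + 1) * ((v - om ^ 2) ^ k / (v - om))
        = (- om ^ 2) ^ (k + 1) * ((v - om) ^ k / (v - om ^ 2)) := by
      have : zf v ^ ((k : ℤ) + 1) = zf v ^ (k + 1) := by
        rw [← zpow_natCast]; push_cast; rfl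
      rw [this, zf, div_pow, mul_pow]
      field_simp
      ring
    rw [h3]
    ring
  have h1 := PA_ne_zero hV
  have h2 := PD_ne_zero hV
  have h3 : ∏ j ∈ V, (j - (om : K) ^ 2) = PD V := rfl
  rw [e, hst, h3, pow_succ (PD V)]
  have h4 : (om : K) ^ k * ((- om ^ 2) ^ (k + 1) * (om ^ 2 - om) ^ k)
      = - om ^ 2 * (om - om ^ 2) ^ k := by
    have : (om : K) ^ k * ((- om ^ 2) ^ (k + 1) * (om ^ 2 - om) ^ k)
      = (om ^ 3 ) ^ k * (- om ^ 2 * (om - om ^ 2) ^ k) := by
      rw [← neg_sub (om : K) (om ^ 2), neg_pow (om - om ^ 2 : K), neg_pow ((om : K) ^ 2),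
        pow_succ (-1 : K)]
      have h5 : ((-1 : K) ^ k) * (-1) ^ k = 1 := by rw [← mul_pow]; simp
      linear_combination (- (om : K) ^ k * (om ^ 2) ^ (k + 1) * (om - om ^ 2) ^ k) * h5
    rw [this, om_cube, one_pow, one_mul]
  have h5 : Cc K k * om ^ k * (PA V / PD V ^ k) *
      ((- om ^ 2) ^ (k + 1) * ((om ^ 2 - om) ^ k * sF (insert 1 V) / PD V))
      = Cc K k * (om ^ k * ((- om ^ 2) ^ (k + 1) * (om ^ 2 - om) ^ k)) *
        (PA V / (PD V ^ k * PD V)) * sF (insert 1 V) := by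
    field_simp
  rw [h5, h4]
  ring

theorem XZ_B_prepend [CharZero K] (k : ℕ) {V : Finset K} (hV : Good V)
    (hc : V.card = 2 * k + 1) :
    XZ (1 :: B k 2) V = - om ^ 2 * Cc K k * (om - om ^ 2) ^ k
      * (PA V / PD V ^ (k + 1)) * sF (insert 1 V) := by
  have hw : (1 : ℤ) :: B k 2 = (0 :: B k 1).map (· + 1) := by
    have : (2 : ℤ) = 1 + 1 := by norm_num
    rw [this, B_shift]
    simp
  rw [hw, XZ_shift _ V hV, prod_zf_odd hc, prepend_of_HH (HH_all k) _ hV hc]
  have h21 : ((om : K) ^ 2) ^ 2 * 1 = om := by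
    calc ((om : K) ^ 2) ^ 2 * 1 = om ^ 3 * om := by ring
      _ = om := by rw [om_cube, one_mul]
  have h22 : ((om : K) ^ 2) ^ 2 = om := by rw [← mul_one (((om : K) ^ 2) ^ 2), h21]
  have hz : ((om : K) ^ 2) ^ 2 + om ^ 2 + 1 = 0 := by
    rw [h22]
    have h1 : (om : K) ^ 2 + om + 1 = 0 := om_eq
    linear_combination h1
  have hst := star' (ζ := (om : K) ^ 2) hz om_sq_ne_one hV.1 (fun a ha => (hV.2 a ha).1) hc
    (r := (Polynomial.X - Polynomial.C (om ^ 2)) ^ k)
    ((Polynomial.natDegree_pow_le).trans (by rw [Polynomial.natDegree_X_sub_C, mul_one]))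
    (t := 1) hV.one_notMem (by rw [h21]; exact hV.notMem_of_cube om_cube)
  simp only [h22, mul_one, Polynomial.eval_pow, Polynomial.eval_sub, Polynomial.eval_X,
    Polynomial.eval_C] at hst
  have e : ∑ v ∈ V, zf v ^ (0 : ℤ) * ((v - om ^ 2) ^ k / (v - om)) * sF (V.erase v)
        * ∏ j ∈ V.erase v, (j - om * v) / (j - v)
      = ∑ v ∈ V, (v - om ^ 2) ^ k / (v - om) * sF (V.erase v)
        * ∏ j ∈ V.erase v, (j - om * v) / (j - v) := by
    refine Finset.sum_congr rfl fun v _ => ?_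
    rw [zpow_zero, one_mul]
  have h1 := PA_ne_zero hV
  have h2 := PD_ne_zero hV
  have h3 : ∏ j ∈ V, (j - (om : K)) = PA V := rfl
  rw [e, hst, h3, pow_succ (PD V)]
  have h4 : - (om : K) ^ (k + 2) * om ^ (2 * k) = - om ^ 2 := by
    have : - (om : K) ^ (k + 2) * om ^ (2 * k) = - ((om ^ 3) ^ k * om ^ 2) := by ring
    rw [this, om_cube, one_pow, one_mul]
  have h5 : - (om : K) ^ (k + 2) * (PA V / PD V) * (Cc K k * om ^ (2 * k) * (PA V / PD V ^ k) *
      ((om - om ^ 2) ^ k * sF (insert 1 V) / PA V))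
      = (- (om : K) ^ (k + 2) * om ^ (2 * k)) * Cc K k * (om - om ^ 2) ^ k *
        (PA V / (PD V ^ k * PD V)) * sF (insert 1 V) := by
    field_simp
  rw [h5, h4]

end LibMT
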